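import Mathlib

/-!
# Computability toolkit: bounded quantifiers and bits
-/

namespace Pool.Agent.Helper672.Blum

theorem primrec_two_pow : Primrec (fun n : ℕ => 2 ^ n) := by
  have h : Primrec (Nat.rec (motive := fun _ => ℕ) 1 (fun _ r => 2 * r)) :=
    Primrec.nat_rec₁ 1 ((Primrec.nat_mul.comp (Primrec.const 2) Primrec.snd).to₂)
  refine h.of_eq fun n => ?_
  induction n with
  | zero => rfl
  | succ n ih => simp only [pow_succ, ← ih]; ring

theorem primrec_testBit : Primrec₂ (fun w z : ℕ => Nat.testBit w z) := by
  have h : Primrec₂ (fun w z : ℕ => decide (w / 2 ^ z % 2 = 1)) := by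
    have h1 : Primrec (fun p : ℕ × ℕ => p.1 / 2 ^ p.2 % 2) :=
      Primrec.nat_mod.comp (Primrec.nat_div.comp Primrec.fst
        (primrec_two_pow.comp Primrec.snd)) (Primrec.const 2)
    have h2 : PrimrecPred (fun p : ℕ × ℕ => p.1 / 2 ^ p.2 % 2 = 1) :=
      Primrec.eq.comp h1 (Primrec.const 1)
    exact h2.decide
  exact h.of_eq fun w z => (Nat.testBit_eq_decide_div_mod_eq).symm

variable {α : Type*} [Primcodable α]

theorem comp_testBit {f g : α → ℕ} (hf : Computable f) (hg : Computable g) :
    Computable fun a => Nat.testBit (f a) (g a) :=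
  primrec_testBit.to_comp.comp hf hg

theorem comp_two_pow {f : α → ℕ} (hf : Computable f) : Computable fun a => 2 ^ (f a) :=
  primrec_two_pow.to_comp.comp hf

theorem comp_add {f g : α → ℕ} (hf : Computable f) (hg : Computable g) :
    Computable fun a => f a + g a := Primrec.nat_add.to_comp.comp hf hg

theorem comp_sub {f g : α → ℕ} (hf : Computable f) (hg : Computable g) :
    Computable fun a => f a - g a := Primrec.nat_sub.to_comp.comp hf hg

theorem comp_max {f g : α → ℕ} (hf : Computable f) (hg : Computable g) :
    Computable fun a => max (f a) (g a) := Primrec.nat_max.to_comp.comp hf hg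

theorem comp_div {f g : α → ℕ} (hf : Computable f) (hg : Computable g) :
    Computable fun a => f a / g a := Primrec.nat_div.to_comp.comp hf hg

theorem comp_mod {f g : α → ℕ} (hf : Computable f) (hg : Computable g) :
    Computable fun a => f a % g a := Primrec.nat_mod.to_comp.comp hf hg

theorem comp_pair {f g : α → ℕ} (hf : Computable f) (hg : Computable g) :
    Computable fun a => Nat.pair (f a) (g a) := Primrec₂.natPair.to_comp.comp hf hg

theorem comp_unpair1 {f : α → ℕ} (hf : Computable f) : Computable fun a => (f a).unpair.1 :=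
  Computable.fst.comp (Computable.unpair.comp hf)

theorem comp_unpair2 {f : α → ℕ} (hf : Computable f) : Computable fun a => (f a).unpair.2 :=
  Computable.snd.comp (Computable.unpair.comp hf)

theorem comp_lt {f g : α → ℕ} (hf : Computable f) (hg : Computable g) :
    Computable fun a => decide (f a < g a) :=
  (Primrec.nat_lt.decide.to_comp).comp hf hg

theorem comp_le {f g : α → ℕ} (hf : Computable f) (hg : Computable g) :
    Computable fun a => decide (f a ≤ g a) :=
  (Primrec.nat_le.decide.to_comp).comp hf hg

theorem comp_eq {f g : α → ℕ} (hf : Computable f) (hg : Computable g) :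
    Computable fun a => decide (f a = g a) :=
  ((Primrec.eq (α := ℕ)).decide.to_comp).comp hf hg

theorem comp_beq {f g : α → Bool} (hf : Computable f) (hg : Computable g) :
    Computable fun a => (f a == g a) :=
  (Primrec.beq (α := Bool)).to_comp.comp hf hg

theorem comp_and {f g : α → Bool} (hf : Computable f) (hg : Computable g) :
    Computable fun a => f a && g a := Primrec.and.to_comp.comp hf hg

theorem comp_or {f g : α → Bool} (hf : Computable f) (hg : Computable g) :
    Computable fun a => f a || g a := Primrec.or.to_comp.comp hf hg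

theorem comp_not {f : α → Bool} (hf : Computable f) : Computable fun a => !(f a) :=
  Primrec.not.to_comp.comp hf

theorem comp_toNat {f : α → Bool} (hf : Computable f) : Computable fun a => (f a).toNat := by
  refine (Computable.cond hf (Computable.const 1) (Computable.const 0)).of_eq fun a => ?_
  cases f a <;> rfl

/-- Bounded existential quantifier. -/
def bex (n : ℕ) (p : ℕ → Bool) : Bool := Nat.rec false (fun k b => b || p k) n

theorem bex_iff {n : ℕ} {p : ℕ → Bool} : bex n p = true ↔ ∃ k < n, p k = true := by
  induction n with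
  | zero => simp [bex]
  | succ n ih =>
    change (bex n p || p n) = true ↔ _
    rw [Bool.or_eq_true, ih]
    constructor
    · rintro (⟨k, hk, h⟩ | h)
      · exact ⟨k, hk.trans n.lt_succ_self, h⟩
      · exact ⟨n, n.lt_succ_self, h⟩
    · rintro ⟨k, hk, h⟩
      rcases (Nat.lt_succ_iff.1 hk).lt_or_eq with h1 | rfl
      · exact Or.inl ⟨k, h1, h⟩
      · exact Or.inr h

theorem comp_bex {f : α → ℕ} {p : α → ℕ → Bool} (hf : Computable f) (hp : Computable₂ p) :
    Computable fun a => bex (f a) (p a) := by
  have h : Computable₂ (fun (a : α) (q : ℕ × Bool) => q.2 || p a q.1) :=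
    (comp_or (Computable.snd.comp Computable.snd)
      (hp.comp Computable.fst (Computable.fst.comp Computable.snd))).to₂
  exact Computable.nat_rec hf (Computable.const false) h

/-- Bounded universal quantifier. -/
def ball (n : ℕ) (p : ℕ → Bool) : Bool := !(bex n (fun k => !(p k)))

theorem ball_iff {n : ℕ} {p : ℕ → Bool} : ball n p = true ↔ ∀ k < n, p k = true := by
  rw [ball, Bool.not_eq_true', ← Bool.not_eq_true, bex_iff]
  push Not
  simp

theorem comp_ball {f : α → ℕ} {p : α → ℕ → Bool} (hf : Computable f) (hp : Computable₂ p) :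
    Computable fun a => ball (f a) (p a) := by
  refine comp_not (comp_bex hf ?_)
  exact (comp_not (hp.comp Computable.fst Computable.snd)).to₂

/-- Bounded minimization: the least `k < n` with `p k`, or `n`. -/
def bmin (n : ℕ) (p : ℕ → Bool) : ℕ :=
  Nat.rec 0 (fun k r => bif decide (r < k) then r else (bif p k then k else k + 1)) n

theorem bmin_succ (n : ℕ) (p : ℕ → Bool) : bmin (n + 1) p =
    bif decide (bmin n p < n) then bmin n p else (bif p n then n else n + 1) := rfl

theorem bmin_spec (n : ℕ) (p : ℕ → Bool) :
    (bmin n p = n ∧ ∀ k < n, p k = false) ∨ (bmin n p < n ∧ p (bmin n p) = true) := by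
  induction n with
  | zero => left; exact ⟨rfl, fun k hk => absurd hk (Nat.not_lt_zero k)⟩
  | succ n ih =>
    rw [bmin_succ]
    rcases ih with ⟨h1, h2⟩ | ⟨h1, h2⟩
    · have h3 : decide (bmin n p < n) = false := by simp [h1]
      rw [h3]
      cases hp : p n
      · left
        refine ⟨by simp, fun k hk => ?_⟩
        rcases (Nat.lt_succ_iff.1 hk).lt_or_eq with h4 | rfl
        · exact h2 k h4
        · exact hp
      · right
        simp [hp]
    · right
      have h3 : decide (bmin n p < n) = true := by simp [h1]
      rw [h3]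
      simp only [cond_true]
      exact ⟨h1.trans n.lt_succ_self, h2⟩

theorem bmin_of_exists {n : ℕ} {p : ℕ → Bool} (h : ∃ k < n, p k = true) :
    bmin n p < n ∧ p (bmin n p) = true := by
  rcases bmin_spec n p with ⟨-, h2⟩ | h2
  · obtain ⟨k, hk, h3⟩ := h
    rw [h2 k hk] at h3
    cases h3
  · exact h2

theorem comp_bmin {f : α → ℕ} {p : α → ℕ → Bool} (hf : Computable f) (hp : Computable₂ p) :
    Computable fun a => bmin (f a) (p a) := by
  have h : Computable₂ (fun (a : α) (q : ℕ × ℕ) =>
      bif decide (q.2 < q.1) then q.2 else (bif p a q.1 then q.1 else q.1 + 1)) := by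
    have h1 : Computable (fun x : α × ℕ × ℕ => x.2.1) := Computable.fst.comp Computable.snd
    have h2 : Computable (fun x : α × ℕ × ℕ => x.2.2) := Computable.snd.comp Computable.snd
    exact (Computable.cond (comp_lt h2 h1) h2
      (Computable.cond (hp.comp Computable.fst h1) h1 (comp_add h1 (Computable.const 1)))).to₂
  exact Computable.nat_rec hf (Computable.const 0) h

/-- Bounded sum. -/
def bsum (n : ℕ) (p : ℕ → ℕ) : ℕ := Nat.rec 0 (fun k r => r + p k) n

theorem bsum_succ (n : ℕ) (p : ℕ → ℕ) : bsum (n + 1) p = bsum n p + p n := rfl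

theorem le_bsum {n : ℕ} {p : ℕ → ℕ} {k : ℕ} (hk : k < n) : p k ≤ bsum n p := by
  induction n with
  | zero => exact absurd hk (Nat.not_lt_zero k)
  | succ n ih =>
    rw [bsum_succ]
    rcases (Nat.lt_succ_iff.1 hk).lt_or_eq with h1 | rfl
    · exact (ih h1).trans (Nat.le_add_right _ _)
    · exact Nat.le_add_left _ _

theorem bsum_mono {n : ℕ} {p q : ℕ → ℕ} (h : ∀ k < n, p k ≤ q k) : bsum n p ≤ bsum n q := by
  induction n with
  | zero => exact le_rfl
  | succ n ih =>
    rw [bsum_succ, bsum_succ]
    exact Nat.add_le_add (ih fun k hk => h k (hk.trans n.lt_succ_self)) (h n n.lt_succ_self)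

theorem comp_bsum {f : α → ℕ} {p : α → ℕ → ℕ} (hf : Computable f) (hp : Computable₂ p) :
    Computable fun a => bsum (f a) (p a) := by
  have h : Computable₂ (fun (a : α) (q : ℕ × ℕ) => q.2 + p a q.1) :=
    (comp_add (Computable.snd.comp Computable.snd)
      (hp.comp Computable.fst (Computable.fst.comp Computable.snd))).to₂
  exact Computable.nat_rec hf (Computable.const 0) h

/-- Unbounded search for a total predicate gives a computable function. -/
theorem comp_find {p : α → ℕ → Bool} (hp : Computable₂ p) (h : ∀ a, ∃ n, p a n = true) :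
    Computable fun a => Nat.find (h a) := by
  have h1 : Partrec fun a => Nat.rfind ((p a : ℕ → Bool) : ℕ →. Bool) :=
    Partrec.rfind hp.partrec₂
  refine h1.of_eq_tot fun a => ?_
  refine Nat.mem_rfind.2 ⟨?_, fun {m} hm => ?_⟩
  · exact Part.mem_some_iff.2 (Nat.find_spec (h a)).symm
  · have := Nat.find_min (h a) hm
    rw [Bool.not_eq_true] at this
    exact Part.mem_some_iff.2 this.symm

/-- Every finite string is given by the bits of a number. -/
theorem exists_bits (f : ℕ → Bool) (b : ℕ) : ∃ w < 2 ^ b, ∀ z < b, Nat.testBit w z = f z := by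
  induction b with
  | zero => exact ⟨0, by simp, fun z hz => absurd hz (Nat.not_lt_zero z)⟩
  | succ b ih =>
    obtain ⟨w, hw, h⟩ := ih
    refine ⟨w + (f b).toNat * 2 ^ b, ?_, ?_⟩
    · rw [pow_succ]
      have : (f b).toNat ≤ 1 := Bool.toNat_le _
      nlinarith [Nat.two_pow_pos b]
    · intro z hz
      cases hb : f b
      · simp only [Bool.toNat_false, zero_mul, add_zero]
        rcases (Nat.lt_succ_iff.1 hz).lt_or_eq with h1 | rfl
        · exact h z h1
        · rw [Nat.testBit_lt_two_pow hw, hb]
      · simp only [Bool.toNat_true, one_mul]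
        rcases (Nat.lt_succ_iff.1 hz).lt_or_eq with h1 | rfl
        · rw [Nat.add_comm, Nat.testBit_two_pow_add_gt h1]
          exact h z h1
        · rw [Nat.add_comm, Nat.testBit_two_pow_add_eq, Nat.testBit_lt_two_pow hw, hb]
          rfl

end Pool.Agent.Helper672.Blum
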