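import Pool.Agent.Helper672.Blum.Defs
import Pool.Agent.Helper672.Blum.Toolkit

/-!
# Finite approximations of partial recursive functionals
-/

namespace Pool.Agent.Helper672.Blum

/-- `E f k n` is a computable approximation of `Ψ f n` with time and use bound `k`. -/
structure Approx (Ψ : (ℕ → Bool) → ℕ →. ℕ) (E : (ℕ → Bool) → ℕ → ℕ → Option ℕ) : Prop where
  loc : ∀ f g k n, (∀ z < k, f z = g z) → E f k n = E g k n
  mono : ∀ f k k' n v, k ≤ k' → E f k n = some v → E f k' n = some v
  sound : ∀ f k n v, E f k n = some v → v ∈ Ψ f n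
  compl : ∀ f n v, v ∈ Ψ f n → ∃ k, E f k n = some v
  comp : Computable (fun p : ℕ × ℕ × ℕ => E (Nat.testBit p.1) p.2.1 p.2.2)

theorem Approx.comp' {Ψ : (ℕ → Bool) → ℕ →. ℕ} {E : (ℕ → Bool) → ℕ → ℕ → Option ℕ}
    (h : Approx Ψ E) {α : Type*} [Primcodable α] {w k n : α → ℕ} (hw : Computable w)
    (hk : Computable k) (hn : Computable n) :
    Computable fun a => E (Nat.testBit (w a)) (k a) (n a) :=
  h.comp.comp (hw.pair (hk.pair hn))

theorem approx_total {F : ℕ → ℕ} (hF : Computable F) :
    Approx (fun _ n => Part.some (F n)) (fun _ _ n => some (F n)) where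
  loc _ _ _ _ _ := rfl
  mono _ _ _ _ _ _ h := h
  sound f k n v h := by
    rw [Part.mem_some_iff]
    exact (Option.some.inj h).symm
  compl f n v h := ⟨0, by rw [Part.mem_some_iff] at h; rw [h]⟩
  comp := Computable.option_some.comp (hF.comp (Computable.snd.comp Computable.snd))

theorem approx_oracle : Approx (fun X n => Part.some (X n).toNat)
    (fun f k n => bif decide (n < k) then some (f n).toNat else none) where
  loc f g k n h := by
    by_cases hn : n < k
    · simp [hn, h n hn]
    · simp [hn]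
  mono f k k' n v hk h := by
    by_cases hn : n < k
    · simp only [hn, decide_true, cond_true] at h
      simp [hn.trans_le hk, h]
    · simp [hn] at h
  sound f k n v h := by
    by_cases hn : n < k
    · simp only [hn, decide_true, cond_true] at h
      rw [Part.mem_some_iff]
      exact (Option.some.inj h).symm
    · simp [hn] at h
  compl f n v h := by
    refine ⟨n + 1, ?_⟩
    rw [Part.mem_some_iff] at h
    simp [h]
  comp := by
    have hw : Computable (fun p : ℕ × ℕ × ℕ => p.1) := Computable.fst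
    have hk : Computable (fun p : ℕ × ℕ × ℕ => p.2.1) := Computable.fst.comp Computable.snd
    have hn : Computable (fun p : ℕ × ℕ × ℕ => p.2.2) := Computable.snd.comp Computable.snd
    exact Computable.cond (comp_lt hn hk)
      (Computable.option_some.comp (comp_toNat (comp_testBit hw hn))) (Computable.const none)

theorem approx_comp {f g : (ℕ → Bool) → ℕ →. ℕ} {E1 E2 : (ℕ → Bool) → ℕ → ℕ → Option ℕ}
    (h1 : Approx f E1) (h2 : Approx g E2) :
    Approx (fun X n => (g X n).bind (f X)) (fun X k n => (E2 X k n).bind (E1 X k)) where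
  loc X X' k n h := by
    rw [h2.loc X X' k n h]
    congr 1
    funext v
    exact h1.loc X X' k v h
  mono X k k' n v hk h := by
    obtain ⟨a, ha, hv⟩ := Option.bind_eq_some_iff.1 h
    exact Option.bind_eq_some_iff.2 ⟨a, h2.mono X k k' n a hk ha, h1.mono X k k' a v hk hv⟩
  sound X k n v h := by
    obtain ⟨a, ha, hv⟩ := Option.bind_eq_some_iff.1 h
    exact Part.mem_bind_iff.2 ⟨a, h2.sound X k n a ha, h1.sound X k a v hv⟩
  compl X n v h := by
    obtain ⟨a, ha, hv⟩ := Part.mem_bind_iff.1 h
    obtain ⟨k1, hk1⟩ := h2.compl X n a ha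
    obtain ⟨k2, hk2⟩ := h1.compl X a v hv
    exact ⟨max k1 k2, Option.bind_eq_some_iff.2 ⟨a, h2.mono X _ _ n a (le_max_left _ _) hk1,
      h1.mono X _ _ a v (le_max_right _ _) hk2⟩⟩
  comp := by
    refine Computable.option_bind h2.comp ?_
    exact (h1.comp' (Computable.fst.comp Computable.fst)
      (Computable.fst.comp (Computable.snd.comp Computable.fst)) Computable.snd).to₂

theorem approx_pair {f g : (ℕ → Bool) → ℕ →. ℕ} {E1 E2 : (ℕ → Bool) → ℕ → ℕ → Option ℕ}
    (h1 : Approx f E1) (h2 : Approx g E2) :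
    Approx (fun X n => (f X n).bind fun a => (g X n).map fun b => Nat.pair a b)
      (fun X k n => (E1 X k n).bind fun a => (E2 X k n).map fun b => Nat.pair a b) where
  loc X X' k n h := by
    rw [h2.loc X X' k n h, h1.loc X X' k n h]
  mono X k k' n v hk h := by
    obtain ⟨a, ha, hv⟩ := Option.bind_eq_some_iff.1 h
    obtain ⟨b, hb, hv⟩ := Option.map_eq_some_iff.1 hv
    exact Option.bind_eq_some_iff.2 ⟨a, h1.mono X k k' n a hk ha,
      Option.map_eq_some_iff.2 ⟨b, h2.mono X k k' n b hk hb, hv⟩⟩
  sound X k n v h := by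
    obtain ⟨a, ha, hv⟩ := Option.bind_eq_some_iff.1 h
    obtain ⟨b, hb, hv⟩ := Option.map_eq_some_iff.1 hv
    exact Part.mem_bind_iff.2 ⟨a, h1.sound X k n a ha,
      (Part.mem_map_iff _).2 ⟨b, h2.sound X k n b hb, hv⟩⟩
  compl X n v h := by
    obtain ⟨a, ha, hv⟩ := Part.mem_bind_iff.1 h
    obtain ⟨b, hb, hv⟩ := (Part.mem_map_iff _).1 hv
    obtain ⟨k1, hk1⟩ := h1.compl X n a ha
    obtain ⟨k2, hk2⟩ := h2.compl X n b hb
    exact ⟨max k1 k2, Option.bind_eq_some_iff.2 ⟨a, h1.mono X _ _ n a (le_max_left _ _) hk1,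
      Option.map_eq_some_iff.2 ⟨b, h2.mono X _ _ n b (le_max_right _ _) hk2, hv⟩⟩⟩
  comp := by
    have hE2 : Computable (fun q : (ℕ × ℕ × ℕ) × ℕ =>
        E2 (Nat.testBit q.1.1) q.1.2.1 q.1.2.2) :=
      h2.comp' (Computable.fst.comp Computable.fst)
        (Computable.fst.comp (Computable.snd.comp Computable.fst))
        (Computable.snd.comp (Computable.snd.comp Computable.fst))
    have hm : Computable₂ (fun (q : (ℕ × ℕ × ℕ) × ℕ) (b : ℕ) => Nat.pair q.2 b) :=
      comp_pair (Computable.snd.comp Computable.fst) Computable.snd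
    have h3 : Computable₂ (fun (p : ℕ × ℕ × ℕ) (a : ℕ) =>
        (E2 (Nat.testBit p.1) p.2.1 p.2.2).map fun b => Nat.pair a b) :=
      Computable.option_map hE2 hm
    exact Computable.option_bind h1.comp h3

/-- Auxiliary iteration for primitive recursion. -/
def precE (e0 : Option ℕ) (e : ℕ → ℕ → Option ℕ) (b : ℕ) : Option ℕ :=
  Nat.rec (motive := fun _ => Option ℕ) e0 (fun y IH => IH.bind fun i => e y i) b

theorem comp_precE {α : Type*} [Primcodable α] {f : α → ℕ} {g : α → Option ℕ}
    {h : α → ℕ → ℕ → Option ℕ} (hf : Computable f) (hg : Computable g)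
    (hh : Computable (fun q : α × ℕ × ℕ => h q.1 q.2.1 q.2.2)) :
    Computable fun a => precE (g a) (h a) (f a) := by
  have hIH : Computable (fun q : α × ℕ × Option ℕ => q.2.2) :=
    Computable.snd.comp Computable.snd
  have h1 : Computable (fun p : (α × ℕ × Option ℕ) × ℕ => (p.1.1, p.1.2.1, p.2)) :=
    (Computable.fst.comp Computable.fst).pair
      ((Computable.fst.comp (Computable.snd.comp Computable.fst)).pair Computable.snd)
  have h2 : Computable₂ (fun (p : α × ℕ × Option ℕ) (i : ℕ) => h p.1 p.2.1 i) := hh.comp h1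
  have a4 : Computable₂ (fun (a : α) (q : ℕ × Option ℕ) => q.2.bind fun i => h a q.1 i) :=
    Computable.option_bind hIH h2
  exact Computable.nat_rec hf hg a4

theorem approx_prec {f g : (ℕ → Bool) → ℕ →. ℕ} {E1 E2 : (ℕ → Bool) → ℕ → ℕ → Option ℕ}
    (h1 : Approx f E1) (h2 : Approx g E2) :
    Approx (fun X n => Nat.rec (motive := fun _ => Part ℕ) (f X n.unpair.1)
        (fun y IH => IH.bind fun i => g X (Nat.pair n.unpair.1 (Nat.pair y i))) n.unpair.2)
      (fun X k n => precE (E1 X k n.unpair.1)
        (fun y i => E2 X k (Nat.pair n.unpair.1 (Nat.pair y i))) n.unpair.2) where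
  loc X X' k n h := by
    have e2 : (fun y i => E2 X k (Nat.pair n.unpair.1 (Nat.pair y i))) =
        fun y i => E2 X' k (Nat.pair n.unpair.1 (Nat.pair y i)) := by
      funext y i
      exact h2.loc X X' k _ h
    rw [e2, h1.loc X X' k _ h]
  mono X k k' n v hk h := by
    generalize n.unpair.1 = a at *
    generalize n.unpair.2 = b at *
    induction b generalizing v with
    | zero => exact h1.mono X k k' a v hk h
    | succ b ih =>
      obtain ⟨i, hi, hv⟩ := Option.bind_eq_some_iff.1 h
      exact Option.bind_eq_some_iff.2 ⟨i, ih i hi, h2.mono X k k' _ v hk hv⟩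
  sound X k n v h := by
    generalize n.unpair.1 = a at *
    generalize n.unpair.2 = b at *
    induction b generalizing v with
    | zero => exact h1.sound X k a v h
    | succ b ih =>
      obtain ⟨i, hi, hv⟩ := Option.bind_eq_some_iff.1 h
      exact Part.mem_bind_iff.2 ⟨i, ih i hi, h2.sound X k _ v hv⟩
  compl X n v h := by
    generalize n.unpair.1 = a at *
    generalize n.unpair.2 = b at *
    induction b generalizing v with
    | zero => exact h1.compl X a v h
    | succ b ih =>
      obtain ⟨i, hi, hv⟩ := Part.mem_bind_iff.1 h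
      obtain ⟨k1, hk1⟩ := ih i hi
      obtain ⟨k2, hk2⟩ := h2.compl X _ v hv
      refine ⟨max k1 k2, Option.bind_eq_some_iff.2 ⟨i, ?_,
        h2.mono X _ _ _ v (le_max_right _ _) hk2⟩⟩
      clear ih hv hk2 hi h
      have hk := le_max_left k1 k2
      generalize max k1 k2 = k' at hk
      induction b generalizing i with
      | zero => exact h1.mono X k1 k' a i hk hk1
      | succ b ih =>
        obtain ⟨j, hj, hv⟩ := Option.bind_eq_some_iff.1 hk1
        exact Option.bind_eq_some_iff.2 ⟨j, ih j hj, h2.mono X k1 k' _ i hk hv⟩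
  comp := by
    have hw : Computable (fun p : ℕ × ℕ × ℕ => p.1) := Computable.fst
    have hk : Computable (fun p : ℕ × ℕ × ℕ => p.2.1) := Computable.fst.comp Computable.snd
    have hn : Computable (fun p : ℕ × ℕ × ℕ => p.2.2) := Computable.snd.comp Computable.snd
    have hh : Computable (fun q : (ℕ × ℕ × ℕ) × ℕ × ℕ =>
        E2 (Nat.testBit q.1.1) q.1.2.1 (Nat.pair q.1.2.2.unpair.1 (Nat.pair q.2.1 q.2.2))) :=
      h2.comp' (hw.comp Computable.fst) (hk.comp Computable.fst)
        (comp_pair (comp_unpair1 (hn.comp Computable.fst))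
          (comp_pair (Computable.fst.comp Computable.snd) (Computable.snd.comp Computable.snd)))
    exact comp_precE (comp_unpair2 hn) (h1.comp' hw hk (comp_unpair1 hn)) hh

/-- Auxiliary search for minimization. -/
def srch (e : ℕ → Option ℕ) (j : ℕ) : ℕ :=
  Nat.rec (motive := fun _ => ℕ) 0 (fun j t => bif decide (t = 0) then
    (Option.elim (e j) 1 (fun v => bif decide (v = 0) then j + 2 else 0)) else t) j

theorem srch_succ (e : ℕ → Option ℕ) (j : ℕ) : srch e (j + 1) =
    bif decide (srch e j = 0) then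
      (Option.elim (e j) 1 (fun v => bif decide (v = 0) then j + 2 else 0)) else srch e j := rfl

theorem srch_spec (e : ℕ → Option ℕ) (j : ℕ) :
    (srch e j = 0 → ∀ i < j, ∃ v, v ≠ 0 ∧ e i = some v) ∧
    (∀ i, srch e j = i + 2 → i < j ∧ e i = some 0 ∧ ∀ i' < i, ∃ v, v ≠ 0 ∧ e i' = some v) ∧
    (∀ i, i < j → e i = some 0 → (∀ i' < i, ∃ v, v ≠ 0 ∧ e i' = some v) → srch e j = i + 2) ∧
    ((∀ i < j, ∃ v, v ≠ 0 ∧ e i = some v) → srch e j = 0) := by
  induction j with
  | zero =>
    refine ⟨fun _ i hi => absurd hi (Nat.not_lt_zero i), fun i h => ?_,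
      fun i hi => absurd hi (Nat.not_lt_zero i), fun _ => rfl⟩
    exact absurd h (by simp [srch])
  | succ j ih =>
    obtain ⟨ih1, ih2, ih3, ih4⟩ := ih
    by_cases h0 : srch e j = 0
    · have hs : srch e (j + 1) = Option.elim (e j) 1
        (fun v => bif decide (v = 0) then j + 2 else 0) := by
        rw [srch_succ, h0]; rfl
      have hall := ih1 h0
      rcases he : e j with _ | v
      · have hs1 : srch e (j + 1) = 1 := by rw [hs, he]; rfl
        rw [hs1]
        refine ⟨fun h => absurd h one_ne_zero, fun i h => by omega, fun i hi h1 h2 => ?_,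
          fun h => ?_⟩
        · rcases (Nat.lt_succ_iff.1 hi).lt_or_eq with h3 | rfl
          · obtain ⟨v, hv, hv2⟩ := hall i h3
            rw [h1] at hv2
            exact absurd (Option.some.inj hv2).symm hv
          · rw [h1] at he; cases he
        · obtain ⟨v, -, hv⟩ := h j j.lt_succ_self
          rw [he] at hv; cases hv
      · by_cases hv : v = 0
        · subst hv
          have hs1 : srch e (j + 1) = j + 2 := by rw [hs, he]; rfl
          rw [hs1]
          refine ⟨fun h => by omega, fun i h => ?_, fun i hi h1 h2 => ?_, fun h => ?_⟩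
          · have : i = j := by omega
            subst this
            exact ⟨i.lt_succ_self, he, hall⟩
          · rcases (Nat.lt_succ_iff.1 hi).lt_or_eq with h3 | rfl
            · obtain ⟨v, hv, hv2⟩ := hall i h3
              rw [h1] at hv2
              exact absurd (Option.some.inj hv2).symm hv
            · rfl
          · obtain ⟨v, hv0, hv⟩ := h j j.lt_succ_self
            rw [he] at hv
            exact absurd (Option.some.inj hv).symm hv0
        · have hs1 : srch e (j + 1) = 0 := by
            rw [hs, he]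
            simp [hv]
          rw [hs1]
          refine ⟨fun _ i hi => ?_, fun i h => by omega, fun i hi h1 h2 => ?_, fun h => rfl⟩
          · rcases (Nat.lt_succ_iff.1 hi).lt_or_eq with h3 | rfl
            · exact hall i h3
            · exact ⟨v, hv, he⟩
          · rcases (Nat.lt_succ_iff.1 hi).lt_or_eq with h3 | rfl
            · obtain ⟨v, hv, hv2⟩ := hall i h3
              rw [h1] at hv2
              exact absurd (Option.some.inj hv2).symm hv
            · rw [he] at h1
              exact absurd (Option.some.inj h1) hv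
    · have hs : srch e (j + 1) = srch e j := by
        rw [srch_succ]
        simp [h0]
      rw [hs]
      refine ⟨fun h => absurd h h0, fun i h => ?_, fun i hi h1 h2 => ?_, fun h => ?_⟩
      · obtain ⟨a, b, c⟩ := ih2 i h
        exact ⟨a.trans j.lt_succ_self, b, c⟩
      · rcases (Nat.lt_succ_iff.1 hi).lt_or_eq with h3 | rfl
        · exact ih3 i h3 h1 h2
        · exact absurd (ih4 h2) h0
      · exact ih4 fun i hi => h i (hi.trans j.lt_succ_self)

theorem comp_srch {α : Type*} [Primcodable α] {f : α → ℕ} {e : α → ℕ → Option ℕ}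
    (hf : Computable f) (he : Computable₂ e) : Computable fun a => srch (e a) (f a) := by
  have b1 : Computable (fun q : α × ℕ × ℕ => q.2.1) := Computable.fst.comp Computable.snd
  have b2 : Computable (fun q : α × ℕ × ℕ => q.2.2) := Computable.snd.comp Computable.snd
  have he' : Computable (fun q : α × ℕ × ℕ => e q.1 q.2.1) := he.comp Computable.fst b1
  have hg : Computable₂ (fun (q : α × ℕ × ℕ) (v : ℕ) =>
      bif decide (v = 0) then q.2.1 + 2 else 0) :=
    Computable.cond (comp_eq Computable.snd (Computable.const 0))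
      (comp_add (b1.comp Computable.fst) (Computable.const 2)) (Computable.const 0)
  have hel : Computable (fun q : α × ℕ × ℕ =>
      Option.elim (e q.1 q.2.1) 1 (fun v => bif decide (v = 0) then q.2.1 + 2 else 0)) := by
    refine (Computable.option_casesOn he' (Computable.const 1) hg).of_eq fun q => ?_
    cases e q.1 q.2.1 <;> rfl
  have hst : Computable₂ (fun (a : α) (q : ℕ × ℕ) => bif decide (q.2 = 0) then
      (Option.elim (e a q.1) 1 (fun v => bif decide (v = 0) then q.1 + 2 else 0)) else q.2) :=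
    Computable.cond (comp_eq b2 (Computable.const 0)) hel b2
  exact Computable.nat_rec hf (Computable.const 0) hst

/-- Approximation of the minimization. -/
def rfE (e : ℕ → Option ℕ) (k : ℕ) : Option ℕ :=
  bif decide (2 ≤ srch e k) then some (srch e k - 2) else none

theorem rfE_iff (e : ℕ → Option ℕ) (k i : ℕ) :
    rfE e k = some i ↔ i < k ∧ e i = some 0 ∧ ∀ i' < i, ∃ v, v ≠ 0 ∧ e i' = some v := by
  obtain ⟨-, h2, h3, -⟩ := srch_spec e k
  constructor
  · intro h
    unfold rfE at h
    by_cases h4 : 2 ≤ srch e k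
    · simp only [h4, decide_true, cond_true] at h
      exact h2 i (by have := Option.some.inj h; omega)
    · simp [h4] at h
  · rintro ⟨a, b, c⟩
    have := h3 i a b c
    unfold rfE
    rw [this]
    simp

theorem approx_rfind {f : (ℕ → Bool) → ℕ →. ℕ} {E1 : (ℕ → Bool) → ℕ → ℕ → Option ℕ}
    (h1 : Approx f E1) :
    Approx (fun X n => Nat.rfind fun m => (f X (Nat.pair n m)).map fun v => decide (v = 0))
      (fun X k n => rfE (fun m => E1 X k (Nat.pair n m)) k) where
  loc X X' k n h := by
    congr 1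
    funext m
    exact h1.loc X X' k _ h
  mono X k k' n v hk h := by
    rw [rfE_iff] at h ⊢
    obtain ⟨a, b, c⟩ := h
    refine ⟨a.trans_le hk, h1.mono X k k' _ _ hk b, fun i' hi' => ?_⟩
    obtain ⟨v, hv, hv2⟩ := c i' hi'
    exact ⟨v, hv, h1.mono X k k' _ _ hk hv2⟩
  sound X k n v h := by
    rw [rfE_iff] at h
    obtain ⟨a, b, c⟩ := h
    refine Nat.mem_rfind.2 ⟨?_, fun {i'} hi' => ?_⟩
    · exact (Part.mem_map_iff _).2 ⟨0, h1.sound X k _ _ b, by simp⟩
    · obtain ⟨v, hv, hv2⟩ := c i' hi'
      exact (Part.mem_map_iff _).2 ⟨v, h1.sound X k _ _ hv2, by simp [hv]⟩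
  compl X n v h := by
    obtain ⟨h2, h3⟩ := Nat.mem_rfind.1 h
    obtain ⟨a, ha, ha2⟩ := (Part.mem_map_iff _).1 h2
    have ha3 : a = 0 := by simpa using ha2
    subst ha3
    obtain ⟨k0, hk0⟩ := h1.compl X _ _ ha
    have key : ∀ j ≤ v, ∃ k, ∀ i' < j, ∃ v, v ≠ 0 ∧ E1 X k (Nat.pair n i') = some v := by
      intro j
      induction j with
      | zero => exact fun _ => ⟨0, fun i' hi' => absurd hi' (Nat.not_lt_zero i')⟩
      | succ j ih =>
        intro hj
        obtain ⟨k1, hk1⟩ := ih (by omega)
        obtain ⟨c, hc, hc2⟩ := (Part.mem_map_iff _).1 (h3 (show j < v by omega))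
        obtain ⟨k2, hk2⟩ := h1.compl X _ _ hc
        refine ⟨max k1 k2, fun i' hi' => ?_⟩
        rcases (Nat.lt_succ_iff.1 hi').lt_or_eq with h4 | rfl
        · obtain ⟨d, hd, hd2⟩ := hk1 i' h4
          exact ⟨d, hd, h1.mono X _ _ _ _ (le_max_left _ _) hd2⟩
        · exact ⟨c, by simpa using hc2, h1.mono X _ _ _ _ (le_max_right _ _) hk2⟩
    obtain ⟨k1, hk1⟩ := key v le_rfl
    refine ⟨max (max k0 k1) (v + 1), ?_⟩
    rw [rfE_iff]
    refine ⟨lt_of_lt_of_le v.lt_succ_self (le_max_right _ _),
      h1.mono X _ _ _ _ ((le_max_left _ _).trans (le_max_left _ _)) hk0, fun i' hi' => ?_⟩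
    obtain ⟨d, hd, hd2⟩ := hk1 i' hi'
    exact ⟨d, hd, h1.mono X _ _ _ _ ((le_max_right _ _).trans (le_max_left _ _)) hd2⟩
  comp := by
    have hw : Computable (fun p : ℕ × ℕ × ℕ => p.1) := Computable.fst
    have hk : Computable (fun p : ℕ × ℕ × ℕ => p.2.1) := Computable.fst.comp Computable.snd
    have hn : Computable (fun p : ℕ × ℕ × ℕ => p.2.2) := Computable.snd.comp Computable.snd
    have he : Computable₂ (fun (p : ℕ × ℕ × ℕ) (m : ℕ) =>
        E1 (Nat.testBit p.1) p.2.1 (Nat.pair p.2.2 m)) :=
      h1.comp' (hw.comp Computable.fst) (hk.comp Computable.fst)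
        (comp_pair (hn.comp Computable.fst) Computable.snd)
    have hs : Computable (fun p : ℕ × ℕ × ℕ =>
        srch (fun m => E1 (Nat.testBit p.1) p.2.1 (Nat.pair p.2.2 m)) p.2.1) :=
      comp_srch hk he
    exact Computable.cond (comp_le (Computable.const 2) hs)
      (Computable.option_some.comp (comp_sub hs (Computable.const 2))) (Computable.const none)

/-- Every partial recursive functional has computable finite approximations. -/
theorem exists_approx {Ψ : (ℕ → Bool) → ℕ →. ℕ} (h : OPartrec Ψ) : ∃ E, Approx Ψ E := by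
  induction h with
  | zero => exact ⟨_, approx_total (Computable.const 0)⟩
  | succ => exact ⟨_, approx_total (F := fun n => n + 1) Computable.succ⟩
  | left => exact ⟨_, approx_total (comp_unpair1 Computable.id)⟩
  | right => exact ⟨_, approx_total (comp_unpair2 Computable.id)⟩
  | oracle => exact ⟨_, approx_oracle⟩
  | pair _ _ ih1 ih2 =>
    obtain ⟨E1, h1⟩ := ih1
    obtain ⟨E2, h2⟩ := ih2
    exact ⟨_, approx_pair h1 h2⟩
  | comp _ _ ih1 ih2 =>
    obtain ⟨E1, h1⟩ := ih1
    obtain ⟨E2, h2⟩ := ih2
    exact ⟨_, approx_comp h1 h2⟩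
  | prec _ _ ih1 ih2 =>
    obtain ⟨E1, h1⟩ := ih1
    obtain ⟨E2, h2⟩ := ih2
    exact ⟨_, approx_prec h1 h2⟩
  | rfind _ ih =>
    obtain ⟨E1, h1⟩ := ih
    exact ⟨_, approx_rfind h1⟩

end Pool.Agent.Helper672.Blum
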