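import Pool.Agent.Helper672.Blum.Approx

/-!
# The clocked values of a relative Blum measure and their modulus
-/

namespace Pool.Agent.Helper672.Blum

open Classical in
/-- `Q M f i x y = v + 1` if `Φ_i^f(x) ≤ y` and `φ_i^f(x) = v`, and `0` if not `Φ_i^f(x) ≤ y`. -/
noncomputable def Q (M : RelBlum) (f : ℕ → Bool) (i x y : ℕ) : ℕ :=
  if h : ∃ y' ≤ y, y' ∈ M.Φ i f x then
    (M.φ i f x).get ((M.dom_iff i f x).1 (Part.dom_iff_mem.2 ⟨h.choose, h.choose_spec.2⟩)) + 1
  else 0

theorem Q_pos {M : RelBlum} {f : ℕ → Bool} {i x y v : ℕ} (h : ∃ y' ≤ y, y' ∈ M.Φ i f x)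
    (hv : v ∈ M.φ i f x) : Q M f i x y = v + 1 := by
  unfold Q
  rw [dif_pos h, Part.get_eq_of_mem hv]

theorem Q_neg {M : RelBlum} {f : ℕ → Bool} {i x y : ℕ} (h : ¬ ∃ y' ≤ y, y' ∈ M.Φ i f x) :
    Q M f i x y = 0 := by
  unfold Q
  rw [dif_neg h]

theorem Q_ne_zero {M : RelBlum} {f : ℕ → Bool} {i x y : ℕ} (h : Q M f i x y ≠ 0) :
    ∃ v, v ∈ M.φ i f x ∧ Q M f i x y = v + 1 ∧ ∃ y' ≤ y, y' ∈ M.Φ i f x := by
  by_cases h1 : ∃ y' ≤ y, y' ∈ M.Φ i f x
  · obtain ⟨y', hy, h2⟩ := h1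
    have h3 : (M.φ i f x).Dom := (M.dom_iff i f x).1 (Part.dom_iff_mem.2 ⟨y', h2⟩)
    exact ⟨_, Part.get_mem h3, Q_pos ⟨y', hy, h2⟩ (Part.get_mem h3), y', hy, h2⟩
  · exact absurd (Q_neg h1) h

theorem Q_mono {M : RelBlum} {f : ℕ → Bool} {i x y z : ℕ} (hyz : y ≤ z) (h : Q M f i x y ≠ 0) :
    Q M f i x z = Q M f i x y := by
  obtain ⟨v, hv, h1, y', hy, h2⟩ := Q_ne_zero h
  rw [h1, Q_pos ⟨y', hy.trans hyz, h2⟩ hv]

/-- The approximations decide. -/
def c1 (ED : (ℕ → Bool) → ℕ → ℕ → Option ℕ) (f : ℕ → Bool) (k i x y : ℕ) : Bool :=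
  bex (y + 1) (fun y' => decide ((ED f k (Nat.pair i (Nat.pair x y'))).getD 0 = 1))

/-- The approximations are defined. -/
def det (ED EU : (ℕ → Bool) → ℕ → ℕ → Option ℕ) (f : ℕ → Bool) (k i x y : ℕ) : Bool :=
  ball (y + 1) (fun y' => (ED f k (Nat.pair i (Nat.pair x y'))).isSome) &&
    (!(c1 ED f k i x y) || (EU f k (Nat.pair i x)).isSome)

/-- The value computed from the approximations. -/
def val (ED EU : (ℕ → Bool) → ℕ → ℕ → Option ℕ) (f : ℕ → Bool) (k i x y : ℕ) : ℕ :=
  bif c1 ED f k i x y then (EU f k (Nat.pair i x)).getD 0 + 1 else 0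

theorem comp_isSome {α : Type*} [Primcodable α] {f : α → Option ℕ} (hf : Computable f) :
    Computable fun a => (f a).isSome := (Primrec.option_isSome (α := ℕ)).to_comp.comp hf

section

variable {ED EU : (ℕ → Bool) → ℕ → ℕ → Option ℕ} {D U : (ℕ → Bool) → ℕ →. ℕ}

theorem c1_loc (hD : Approx D ED) {f g : ℕ → Bool} {k : ℕ} (i x y : ℕ)
    (h : ∀ z < k, f z = g z) : c1 ED f k i x y = c1 ED g k i x y := by
  unfold c1
  congr 1
  funext y'
  rw [hD.loc f g k _ h]

theorem det_loc (hD : Approx D ED) (hU : Approx U EU) {f g : ℕ → Bool} {k : ℕ} (i x y : ℕ)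
    (h : ∀ z < k, f z = g z) : det ED EU f k i x y = det ED EU g k i x y := by
  unfold det
  rw [c1_loc hD i x y h, hU.loc f g k _ h]
  congr 2
  funext y'
  rw [hD.loc f g k _ h]

theorem val_loc (hD : Approx D ED) (hU : Approx U EU) {f g : ℕ → Bool} {k : ℕ} (i x y : ℕ)
    (h : ∀ z < k, f z = g z) : val ED EU f k i x y = val ED EU g k i x y := by
  unfold val
  rw [c1_loc hD i x y h, hU.loc f g k _ h]

theorem c1_comp (hD : Approx D ED) {α : Type*} [Primcodable α] {w k i x y : α → ℕ}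
    (hw : Computable w) (hk : Computable k) (hi : Computable i) (hx : Computable x)
    (hy : Computable y) : Computable fun a => c1 ED (Nat.testBit (w a)) (k a) (i a) (x a) (y a) := by
  have h1 : Computable₂ (fun (a : α) (y' : ℕ) => decide ((ED (Nat.testBit (w a)) (k a)
      (Nat.pair (i a) (Nat.pair (x a) y'))).getD 0 = 1)) := by
    have h2 : Computable (fun q : α × ℕ => ED (Nat.testBit (w q.1)) (k q.1)
        (Nat.pair (i q.1) (Nat.pair (x q.1) q.2))) :=
      hD.comp' (hw.comp Computable.fst) (hk.comp Computable.fst)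
        (comp_pair (hi.comp Computable.fst) (comp_pair (hx.comp Computable.fst) Computable.snd))
    exact comp_eq (Computable.option_getD h2 (Computable.const 0)) (Computable.const 1)
  exact comp_bex (comp_add hy (Computable.const 1)) h1

theorem det_comp (hD : Approx D ED) (hU : Approx U EU) {α : Type*} [Primcodable α]
    {w k i x y : α → ℕ} (hw : Computable w) (hk : Computable k) (hi : Computable i)
    (hx : Computable x) (hy : Computable y) :
    Computable fun a => det ED EU (Nat.testBit (w a)) (k a) (i a) (x a) (y a) := by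
  have h1 : Computable₂ (fun (a : α) (y' : ℕ) => (ED (Nat.testBit (w a)) (k a)
      (Nat.pair (i a) (Nat.pair (x a) y'))).isSome) := by
    have h2 : Computable (fun q : α × ℕ => ED (Nat.testBit (w q.1)) (k q.1)
        (Nat.pair (i q.1) (Nat.pair (x q.1) q.2))) :=
      hD.comp' (hw.comp Computable.fst) (hk.comp Computable.fst)
        (comp_pair (hi.comp Computable.fst) (comp_pair (hx.comp Computable.fst) Computable.snd))
    exact comp_isSome h2
  exact comp_and (comp_ball (comp_add hy (Computable.const 1)) h1)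
    (comp_or (comp_not (c1_comp hD hw hk hi hx hy))
      (comp_isSome (hU.comp' hw hk (comp_pair hi hx))))

theorem val_comp (hD : Approx D ED) (hU : Approx U EU) {α : Type*} [Primcodable α]
    {w k i x y : α → ℕ} (hw : Computable w) (hk : Computable k) (hi : Computable i)
    (hx : Computable x) (hy : Computable y) :
    Computable fun a => val ED EU (Nat.testBit (w a)) (k a) (i a) (x a) (y a) :=
  Computable.cond (c1_comp hD hw hk hi hx hy)
    (comp_add (Computable.option_getD (hU.comp' hw hk (comp_pair hi hx)) (Computable.const 0))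
      (Computable.const 1)) (Computable.const 0)

theorem det_iff {f : ℕ → Bool} {k i x y : ℕ} : det ED EU f k i x y = true ↔
    (∀ y' ≤ y, ∃ d, ED f k (Nat.pair i (Nat.pair x y')) = some d) ∧
      (c1 ED f k i x y = true → ∃ v, EU f k (Nat.pair i x) = some v) := by
  unfold det
  rw [Bool.and_eq_true, ball_iff, Bool.or_eq_true, Bool.not_eq_true', ← Bool.not_eq_true,
    Option.isSome_iff_exists]
  constructor
  · rintro ⟨h1, h2⟩
    refine ⟨fun y' hy' => Option.isSome_iff_exists.1 (h1 y' (Nat.lt_succ_iff.2 hy')), fun h => ?_⟩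
    exact h2.resolve_left (fun h3 => h3 h)
  · rintro ⟨h1, h2⟩
    refine ⟨fun y' hy' => Option.isSome_iff_exists.2 (h1 y' (Nat.lt_succ_iff.1 hy')), ?_⟩
    by_cases h : c1 ED f k i x y = true
    · exact Or.inr (h2 h)
    · exact Or.inl h

theorem c1_iff {f : ℕ → Bool} {k i x y : ℕ} : c1 ED f k i x y = true ↔
    ∃ y' ≤ y, ED f k (Nat.pair i (Nat.pair x y')) = some 1 := by
  unfold c1
  rw [bex_iff]
  constructor
  · rintro ⟨y', hy', h⟩
    refine ⟨y', Nat.lt_succ_iff.1 hy', ?_⟩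
    rw [decide_eq_true_eq] at h
    cases h2 : ED f k (Nat.pair i (Nat.pair x y'))
    · rw [h2] at h; simp at h
    · rw [h2] at h; simp at h; rw [h]
  · rintro ⟨y', hy', h⟩
    exact ⟨y', Nat.lt_succ_iff.2 hy', by rw [h]; rfl⟩

theorem det_mono (hD : Approx D ED) (hU : Approx U EU) {f : ℕ → Bool} {k k' i x y : ℕ}
    (hk : k ≤ k') (h : det ED EU f k i x y = true) : det ED EU f k' i x y = true := by
  rw [det_iff] at h ⊢
  obtain ⟨h1, h2⟩ := h
  refine ⟨fun y' hy' => ?_, fun h3 => ?_⟩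
  · obtain ⟨d, hd⟩ := h1 y' hy'
    exact ⟨d, hD.mono f k k' _ d hk hd⟩
  · have h4 : c1 ED f k i x y = true := by
      rw [c1_iff] at h3 ⊢
      obtain ⟨y', hy', h5⟩ := h3
      obtain ⟨d, hd⟩ := h1 y' hy'
      have := hD.mono f k k' _ d hk hd
      rw [h5] at this
      exact ⟨y', hy', by rw [hd, ← this]⟩
    obtain ⟨v, hv⟩ := h2 h4
    exact ⟨v, hU.mono f k k' _ v hk hv⟩

end

section

variable (M : RelBlum) {ED EU : (ℕ → Bool) → ℕ → ℕ → Option ℕ} {D : (ℕ → Bool) → ℕ →. ℕ}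

theorem val_eq (hD : Approx D ED) (hU : Approx (fun X n => M.φ n.unpair.1 X n.unpair.2) EU)
    (hDM : ∀ i X x y, (y ∈ M.Φ i X x → D X (Nat.pair i (Nat.pair x y)) = Part.some 1) ∧
      (y ∉ M.Φ i X x → D X (Nat.pair i (Nat.pair x y)) = Part.some 0))
    {f : ℕ → Bool} {k i x y : ℕ} (h : det ED EU f k i x y = true) :
    val ED EU f k i x y = Q M f i x y := by
  rw [det_iff] at h
  obtain ⟨h1, h2⟩ := h
  have hc : c1 ED f k i x y = true ↔ ∃ y' ≤ y, y' ∈ M.Φ i f x := by
    rw [c1_iff]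
    constructor
    · rintro ⟨y', hy', h3⟩
      refine ⟨y', hy', ?_⟩
      by_contra h4
      have h5 := hD.sound f k _ _ h3
      rw [(hDM i f x y').2 h4, Part.mem_some_iff] at h5
      exact one_ne_zero h5
    · rintro ⟨y', hy', h3⟩
      obtain ⟨d, hd⟩ := h1 y' hy'
      have h5 := hD.sound f k _ _ hd
      rw [(hDM i f x y').1 h3, Part.mem_some_iff] at h5
      exact ⟨y', hy', by rw [hd, h5]⟩
  unfold val
  by_cases h3 : c1 ED f k i x y = true
  · obtain ⟨v, hv⟩ := h2 h3
    have h4 := hU.sound f k _ _ hv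
    simp only [Nat.unpair_pair] at h4
    rw [h3, Q_pos (hc.1 h3) h4, hv]
    rfl
  · rw [Q_neg (fun h4 => h3 (hc.2 h4))]
    rw [Bool.not_eq_true] at h3
    rw [h3]
    rfl

theorem exists_det (hD : Approx D ED) (hU : Approx (fun X n => M.φ n.unpair.1 X n.unpair.2) EU)
    (hDM : ∀ i X x y, (y ∈ M.Φ i X x → D X (Nat.pair i (Nat.pair x y)) = Part.some 1) ∧
      (y ∉ M.Φ i X x → D X (Nat.pair i (Nat.pair x y)) = Part.some 0))
    (f : ℕ → Bool) (i x y : ℕ) : ∃ k, det ED EU f k i x y = true := by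
  have h1 : ∀ y, ∃ k, ∀ y' ≤ y, ∃ d, ED f k (Nat.pair i (Nat.pair x y')) = some d := by
    have h0 : ∀ y', ∃ k d, ED f k (Nat.pair i (Nat.pair x y')) = some d := by
      intro y'
      by_cases h : y' ∈ M.Φ i f x
      · obtain ⟨k, hk⟩ := hD.compl f (Nat.pair i (Nat.pair x y')) 1
          (by rw [(hDM i f x y').1 h]; exact Part.mem_some 1)
        exact ⟨k, _, hk⟩
      · obtain ⟨k, hk⟩ := hD.compl f (Nat.pair i (Nat.pair x y')) 0
          (by rw [(hDM i f x y').2 h]; exact Part.mem_some 0)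
        exact ⟨k, _, hk⟩
    intro y
    induction y with
    | zero =>
      obtain ⟨k, d, hd⟩ := h0 0
      exact ⟨k, fun y' hy' => by rw [Nat.le_zero.1 hy']; exact ⟨d, hd⟩⟩
    | succ y ih =>
      obtain ⟨k1, hk1⟩ := ih
      obtain ⟨k2, d, hd⟩ := h0 (y + 1)
      refine ⟨max k1 k2, fun y' hy' => ?_⟩
      rcases hy'.lt_or_eq with h | rfl
      · obtain ⟨e, he⟩ := hk1 y' (Nat.lt_succ_iff.1 h)
        exact ⟨e, hD.mono f _ _ _ _ (le_max_left _ _) he⟩
      · exact ⟨d, hD.mono f _ _ _ _ (le_max_right _ _) hd⟩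
  obtain ⟨k1, hk1⟩ := h1 y
  by_cases h2 : ∃ y' ≤ y, y' ∈ M.Φ i f x
  · obtain ⟨y', hy', h3⟩ := h2
    have h4 : (M.φ i f x).Dom := (M.dom_iff i f x).1 (Part.dom_iff_mem.2 ⟨y', h3⟩)
    obtain ⟨v, hv⟩ := Part.dom_iff_mem.1 h4
    obtain ⟨k2, hk2⟩ := hU.compl f (Nat.pair i x) v (by simpa using hv)
    refine ⟨max k1 k2, det_iff.2 ⟨fun z hz => ?_, fun _ => ?_⟩⟩
    · obtain ⟨e, he⟩ := hk1 z hz
      exact ⟨e, hD.mono f _ _ _ _ (le_max_left _ _) he⟩
    · exact ⟨v, hU.mono f _ _ _ _ (le_max_right _ _) hk2⟩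
  · refine ⟨k1, det_iff.2 ⟨hk1, fun h3 => ?_⟩⟩
    exfalso
    rw [c1_iff] at h3
    obtain ⟨y', hy', h4⟩ := h3
    have h5 := hD.sound f k1 _ _ h4
    by_cases h6 : y' ∈ M.Φ i f x
    · exact h2 ⟨y', hy', h6⟩
    · rw [(hDM i f x y').2 h6, Part.mem_some_iff] at h5
      exact one_ne_zero h5

/-- The fan theorem for `det`. -/
theorem fan {P : (ℕ → Bool) → ℕ → Bool} (hloc : ∀ f g k, (∀ z < k, f z = g z) → P f k = P g k)
    (hmono : ∀ f k k', k ≤ k' → P f k = true → P f k' = true) (hex : ∀ f, ∃ k, P f k = true) :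
    ∃ k, ∀ f, P f k = true := by
  by_contra hcon
  push Not at hcon
  have h1 : ∀ k, IsClosed {f : ℕ → Bool | P f k = false} := by
    intro k
    rw [← isOpen_compl_iff, isOpen_iff_mem_nhds]
    intro f hf
    have h2 : {g : ℕ → Bool | ∀ z < k, f z = g z} ∈ nhds f := by
      have h3 : {g : ℕ → Bool | ∀ z < k, f z = g z} = ⋂ z ∈ Finset.range k, {g | f z = g z} := by
        ext g
        simp
      rw [h3]
      refine (Filter.biInter_finset_mem _).2 fun z _ => ?_
      have h4 : IsOpen {g : ℕ → Bool | f z = g z} :=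
        (isOpen_discrete {b : Bool | f z = b}).preimage (continuous_apply z)
      exact h4.mem_nhds rfl
    refine Filter.mem_of_superset h2 fun g hg => ?_
    simp only [Set.mem_compl_iff, Set.mem_ofPred_eq] at hf ⊢
    rw [← hloc f g k hg]
    exact hf
  have h2 : (⋂ k, {f : ℕ → Bool | P f k = false}).Nonempty := by
    refine IsCompact.nonempty_iInter_of_sequence_nonempty_isCompact_isClosed _ ?_ ?_ ?_ h1
    · intro k f hf
      simp only [Set.mem_ofPred_eq] at hf ⊢
      by_contra h3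
      rw [Bool.not_eq_false] at h3
      rw [hmono f k (k + 1) k.le_succ h3] at hf
      cases hf
    · intro k
      obtain ⟨f, hf⟩ := hcon k
      exact ⟨f, by simpa using hf⟩
    · exact (h1 0).isCompact
  obtain ⟨f, hf⟩ := h2
  obtain ⟨k, hk⟩ := hex f
  have := Set.mem_iInter.1 hf k
  simp only [Set.mem_ofPred_eq] at this
  rw [hk] at this
  cases this

/-- The clocked values have a computable modulus and are computable on oracles given by bits. -/
theorem exists_modulus : ∃ u : ℕ → ℕ → ℕ → ℕ,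
    Computable (fun p : ℕ × ℕ × ℕ => u p.1 p.2.1 p.2.2) ∧
    (∀ f g i x y, (∀ z < u i x y, f z = g z) → Q M f i x y = Q M g i x y) ∧
    Computable (fun p : ℕ × ℕ × ℕ × ℕ => Q M (Nat.testBit p.1) p.2.1 p.2.2.1 p.2.2.2) := by
  obtain ⟨D, hDO, hDM⟩ := M.decidable
  obtain ⟨ED, hD⟩ := exists_approx hDO
  obtain ⟨EU, hU⟩ := exists_approx M.universal
  have hex : ∀ p : ℕ × ℕ × ℕ, ∃ k,
      ball (2 ^ k) (fun w => det ED EU (Nat.testBit w) k p.1 p.2.1 p.2.2) = true := by
    intro p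
    obtain ⟨k, hk⟩ := fan (P := fun f k => det ED EU f k p.1 p.2.1 p.2.2)
      (fun f g k h => det_loc hD hU _ _ _ h) (fun f k k' hk h => det_mono hD hU hk h)
      (fun f => exists_det M hD hU hDM f _ _ _)
    exact ⟨k, ball_iff.2 fun w _ => hk _⟩
  have hcp : Computable₂ (fun (p : ℕ × ℕ × ℕ) (k : ℕ) =>
      ball (2 ^ k) (fun w => det ED EU (Nat.testBit w) k p.1 p.2.1 p.2.2)) := by
    have h1 : Computable₂ (fun (q : (ℕ × ℕ × ℕ) × ℕ) (w : ℕ) =>
        det ED EU (Nat.testBit w) q.2 q.1.1 q.1.2.1 q.1.2.2) := by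
      refine det_comp hD hU Computable.snd (Computable.snd.comp Computable.fst) ?_ ?_ ?_
      · exact Computable.fst.comp (Computable.fst.comp Computable.fst)
      · exact Computable.fst.comp (Computable.snd.comp (Computable.fst.comp Computable.fst))
      · exact Computable.snd.comp (Computable.snd.comp (Computable.fst.comp Computable.fst))
    exact comp_ball (comp_two_pow Computable.snd) h1
  have hfind := comp_find hcp hex
  let u : ℕ → ℕ → ℕ → ℕ := fun i x y => Nat.find (hex (i, x, y))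
  have hdet : ∀ f i x y, det ED EU f (u i x y) i x y = true := by
    intro f i x y
    obtain ⟨w, hw, hwf⟩ := exists_bits f (u i x y)
    have h1 := ball_iff.1 (Nat.find_spec (hex (i, x, y))) w hw
    have h2 := det_loc hD hU (ED := ED) (EU := EU) i x y hwf
    rw [← h2]
    exact h1
  refine ⟨u, hfind, ?_, ?_⟩
  · intro f g i x y h
    rw [← val_eq M hD hU hDM (hdet f i x y), ← val_eq M hD hU hDM (hdet g i x y)]
    exact val_loc hD hU i x y h
  · have h1 : Computable (fun p : ℕ × ℕ × ℕ × ℕ =>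
        val ED EU (Nat.testBit p.1) (u p.2.1 p.2.2.1 p.2.2.2) p.2.1 p.2.2.1 p.2.2.2) := by
      refine val_comp hD hU Computable.fst (hfind.comp Computable.snd) ?_ ?_ ?_
      · exact Computable.fst.comp Computable.snd
      · exact Computable.fst.comp (Computable.snd.comp Computable.snd)
      · exact Computable.snd.comp (Computable.snd.comp Computable.snd)
    exact h1.of_eq fun p => val_eq M hD hU hDM (hdet _ _ _ _)

end

end Pool.Agent.Helper672.Blum
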