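import Mathlib

/-!
# Relative Blum measures

Oracles, that is subsets of `ℕ`, are given by their characteristic functions `ℕ → Bool`.
-/

namespace Pool.Agent.Helper672.Blum

/-- The partial recursive functionals `Ψ(X; n)`, uniformly in the oracle `X`: the smallest class
that contains the basic functions and the oracle, and is closed under pairing, composition,
primitive recursion and minimization. -/
inductive OPartrec : ((ℕ → Bool) → ℕ →. ℕ) → Prop
  | zero : OPartrec (fun _ _ => Part.some 0)
  | succ : OPartrec (fun _ n => Part.some (n + 1))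
  | left : OPartrec (fun _ n => Part.some n.unpair.1)
  | right : OPartrec (fun _ n => Part.some n.unpair.2)
  | oracle : OPartrec (fun X n => Part.some (X n).toNat)
  | pair {f g : (ℕ → Bool) → ℕ →. ℕ} : OPartrec f → OPartrec g →
      OPartrec (fun X n => (f X n).bind fun a => (g X n).map fun b => Nat.pair a b)
  | comp {f g : (ℕ → Bool) → ℕ →. ℕ} : OPartrec f → OPartrec g →
      OPartrec (fun X n => (g X n).bind (f X))
  | prec {f g : (ℕ → Bool) → ℕ →. ℕ} : OPartrec f → OPartrec g →
      OPartrec (fun X n => Nat.rec (motive := fun _ => Part ℕ) (f X n.unpair.1)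
        (fun y IH => IH.bind fun i => g X (Nat.pair n.unpair.1 (Nat.pair y i))) n.unpair.2)
  | rfind {f : (ℕ → Bool) → ℕ →. ℕ} : OPartrec f →
      OPartrec (fun X n => Nat.rfind fun m => (f X (Nat.pair n m)).map fun v => decide (v = 0))

/-- A relative Blum measure: `φ` is an acceptable enumeration of the partial recursive functionals
(it is itself a partial recursive functional of index and argument, and every such functional can
be translated into it by a recursive function), `Φ i X x` is defined iff `φ i X x` is, and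
`Φ i X x = y` is decidable with oracle `X`, uniformly. -/
structure RelBlum where
  /-- the functionals -/
  φ : ℕ → (ℕ → Bool) → ℕ →. ℕ
  /-- their complexities -/
  Φ : ℕ → (ℕ → Bool) → ℕ →. ℕ
  universal : OPartrec (fun X n => φ n.unpair.1 X n.unpair.2)
  acceptable : ∀ Ψ : (ℕ → Bool) → ℕ →. ℕ, OPartrec Ψ →
    ∃ h : ℕ → ℕ, Computable h ∧ ∀ i X x, φ (h i) X x = Ψ X (Nat.pair i x)
  dom_iff : ∀ i X x, (Φ i X x).Dom ↔ (φ i X x).Dom
  decidable : ∃ D : (ℕ → Bool) → ℕ →. ℕ, OPartrec D ∧ ∀ i X x y,
    (y ∈ Φ i X x → D X (Nat.pair i (Nat.pair x y)) = Part.some 1) ∧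
    (y ∉ Φ i X x → D X (Nat.pair i (Nat.pair x y)) = Part.some 0)

/-- The empty oracle. -/
def noOracle : ℕ → Bool := fun _ => false

/-- `φ_i^X` is the characteristic function of `A`. -/
def RelBlum.Computes (M : RelBlum) (i : ℕ) (X A : ℕ → Bool) : Prop :=
  ∀ x, M.φ i X x = Part.some (A x).toNat

/-- `Φ^X-Comp(A) >ae t`: every `i` with `φ_i^X = c_A` satisfies `Φ_i^X(x) > t(x)` for all but
finitely many `x`. -/
def RelBlum.CompAE (M : RelBlum) (X A : ℕ → Bool) (t : ℕ → ℕ) : Prop :=
  ∀ i, M.Computes i X A → ∃ x₀, ∀ x ≥ x₀, ∀ y ∈ M.Φ i X x, t x < y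

end Pool.Agent.Helper672.Blum
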