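import Pool.Agent.Helper672.Blum.Stage

/-!
# The finite injury argument
-/

namespace Pool.Agent.Helper672.Blum

namespace Sys

variable (S : Sys)

theorem u_le_U {i x T : ℕ} (h : x ≤ T) : S.u i x T ≤ S.U i T :=
  le_bsum (p := fun x => S.u i x T) (Nat.lt_succ_of_le h)

theorem q0_mono {k x m m' : ℕ} (h : m ≤ m') (h0 : S.q0 k x m ≠ 0) : S.q0 k x m' = S.q0 k x m :=
  S.mono _ _ _ _ _ h h0

/-- The data of the construction: `k` is a program for `A`, `l` is a program for `s`. -/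
structure World (k l : ℕ) (A : ℕ → Bool) (s : ℕ → ℕ) : Prop where
  exA : ∀ x, ∃ m, S.q0 k x m ≠ 0
  valA : ∀ x m, S.q0 k x m ≠ 0 → S.q0 k x m = (A x).toNat + 1
  exs : ∀ x, ∃ m, S.q0 l x m ≠ 0
  vals : ∀ x m, S.q0 l x m ≠ 0 → S.q0 l x m = s x + 1

/-- True version of `satK`. -/
def tK (A : ℕ → Bool) (i w b T : ℕ) : Prop :=
  ∃ t ≤ T, S.U i t ≤ b ∧ ∃ x ≤ t, S.Q (Nat.testBit w) i x t ≠ 0 ∧
    S.Q (Nat.testBit w) i x t ≠ (A x).toNat + 1

/-- True version of `satC`. -/
def tC (s : ℕ → ℕ) (e w b : ℕ) : Prop :=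
  ∃ z < b, S.q0 e z (s z) ≠ 0 ∧ S.q0 e z (s z) ≠ (Nat.testBit w z).toNat + 1

/-- True version of `sat`. -/
def ts (A : ℕ → Bool) (s : ℕ → ℕ) (n w b T : ℕ) : Prop :=
  (n % 2 = 0 ∧ S.tC s (n / 2) w b) ∨ (n % 2 ≠ 0 ∧ S.tK A (n / 2) w b T)

variable {S} {k l : ℕ} {A : ℕ → Bool} {s : ℕ → ℕ}

theorem ts_mono {n w w' b b' T T' : ℕ} (h : S.ts A s n w b T)
    (hw : ∀ z < b, Nat.testBit w z = Nat.testBit w' z) (hb : b ≤ b') (hT : T ≤ T') :
    S.ts A s n w' b' T' := by
  rcases h with ⟨hn, z, hz, h1, h2⟩ | ⟨hn, t, ht, hU, x, hx, h1, h2⟩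
  · exact Or.inl ⟨hn, z, hz.trans_le hb, h1, by rw [← hw z hz]; exact h2⟩
  · have h3 : S.Q (Nat.testBit w) (n / 2) x t = S.Q (Nat.testBit w') (n / 2) x t :=
      S.loc _ _ _ _ _ fun z hz => hw z (hz.trans_le ((S.u_le_U hx).trans hU))
    exact Or.inr ⟨hn, t, ht.trans hT, hU.trans hb, x, hx, by rw [← h3]; exact h1,
      by rw [← h3]; exact h2⟩

theorem waitc_iff {b T m : ℕ} : S.waitc k l b T m = true ↔
    (∀ x ≤ T, S.q0 k x m ≠ 0) ∧ ∀ z < b, S.q0 l z m ≠ 0 := by
  unfold waitc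
  rw [Bool.and_eq_true, ball_iff, ball_iff]
  simp only [Nat.lt_succ_iff, Bool.not_eq_true', decide_eq_false_iff_not, ne_eq]

theorem sat_iff (W : S.World k l A s) {b T m : ℕ} (hw : S.waitc k l b T m = true) (n w b' : ℕ)
    (hb : n % 2 = 0 → b' ≤ b) : S.sat k l n w b' T m = true ↔ S.ts A s n w b' T := by
  rw [waitc_iff] at hw
  obtain ⟨h1, h2⟩ := hw
  unfold sat ts
  by_cases hn : n % 2 = 0
  · simp only [hn, decide_true, cond_true, true_and, ne_eq, not_true_eq_false, false_and, or_false]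
    unfold satC tC
    rw [bex_iff]
    refine exists_congr fun z => and_congr_right fun hz => ?_
    have h3 : S.hv l (n / 2) z m = S.q0 (n / 2) z (s z) := by
      unfold hv
      rw [W.vals z m (h2 z (hz.trans_le (hb hn))), Nat.add_sub_cancel]
    rw [h3]
    simp only [Bool.and_eq_true, Bool.not_eq_true', decide_eq_false_iff_not, ne_eq]
  · simp only [hn, decide_false, cond_false, false_and, ne_eq, not_false_eq_true, true_and,
      false_or]
    unfold satK tK
    rw [bex_iff]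
    simp only [Nat.lt_succ_iff, Bool.and_eq_true, decide_eq_true_eq, bex_iff]
    refine exists_congr fun t => and_congr_right fun ht => and_congr_right fun _ =>
      exists_congr fun x => and_congr_right fun hx => ?_
    unfold bad
    rw [W.valA x m (h1 x (hx.trans ht))]
    simp only [Bool.and_eq_true, Bool.not_eq_true', decide_eq_false_iff_not, ne_eq]

theorem bb_ge (n b T : ℕ) : b ≤ S.bb n b T := by
  unfold bb
  by_cases hn : n % 2 = 0
  · simp [hn]
  · simp [hn]

theorem bb_even {n : ℕ} (b T : ℕ) (hn : n % 2 = 0) : S.bb n b T = b := by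
  unfold bb
  simp [hn]

theorem bb_odd {n : ℕ} (b T : ℕ) (hn : n % 2 ≠ 0) : S.U (n / 2) T ≤ S.bb n b T := by
  unfold bb
  simp [hn]

theorem cand_iff {n w a b T m w' : ℕ} : S.cand k l n w a b T m w' = true ↔
    (∀ z < a, Nat.testBit w z = Nat.testBit w' z) ∧ S.sat k l n w' (S.bb n b T) T m = true := by
  unfold cand
  rw [Bool.and_eq_true, ball_iff]
  simp only [beq_iff_eq]

/-- The requirement `n` acts. -/
def actsB (S : Sys) (k l n w a b T m : ℕ) : Prop :=
  S.sat k l n w b T m = false ∧ bex (2 ^ (S.bb n b T)) (S.cand k l n w a b T m) = true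

theorem act_of_not {n w a b T m : ℕ} (h : ¬ actsB S k l n w a b T m) :
    S.act k l n w a b T m = (w, b) := by
  unfold act
  cases h1 : S.sat k l n w b T m
  · cases h2 : bex (2 ^ (S.bb n b T)) (S.cand k l n w a b T m)
    · rfl
    · exact absurd ⟨h1, h2⟩ h
  · rfl

theorem act_of_acts {n w a b T m : ℕ} (h : actsB S k l n w a b T m) :
    (S.act k l n w a b T m).2 = S.bb n b T ∧
    (∀ z < a, Nat.testBit w z = Nat.testBit (S.act k l n w a b T m).1 z) ∧
    S.sat k l n (S.act k l n w a b T m).1 (S.bb n b T) T m = true := by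
  have h1 : S.act k l n w a b T m =
      (bmin (2 ^ (S.bb n b T)) (S.cand k l n w a b T m), S.bb n b T) := by
    unfold act
    rw [h.1, h.2]
    rfl
  have h2 := bmin_of_exists (bex_iff.1 h.2)
  have h3 := cand_iff.1 h2.2
  rw [h1]
  exact ⟨rfl, h3.1, h3.2⟩

/-- The components of the state. -/
def w (S : Sys) (k l m : ℕ) : ℕ := (S.st k l m).1
def a (S : Sys) (k l m : ℕ) : ℕ := (S.st k l m).2.1
def b (S : Sys) (k l m : ℕ) : ℕ := (S.st k l m).2.2.1
def r (S : Sys) (k l m : ℕ) : ℕ := (S.st k l m).2.2.2.1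
def T (S : Sys) (k l m : ℕ) : ℕ := (S.st k l m).2.2.2.2

/-- Event at stage `m + 1`. -/
def Ev (S : Sys) (k l m : ℕ) : Prop := S.waitc k l (S.b k l m) (S.T k l m) (m + 1) = true

/-- Requirement `n` acts at stage `m + 1`. -/
def Acts (S : Sys) (k l m n : ℕ) : Prop :=
  S.r k l m = n + 1 ∧ Ev S k l m ∧
    actsB S k l n (S.w k l m) (S.a k l m) (S.b k l m) (S.T k l m) (m + 1)

theorem step_no {m : ℕ} (h : ¬ Ev S k l m) : S.w k l (m + 1) = S.w k l m ∧
    S.a k l (m + 1) = S.a k l m ∧ S.b k l (m + 1) = S.b k l m ∧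
    S.r k l (m + 1) = S.r k l m ∧ S.T k l (m + 1) = S.T k l m := by
  have h1 : S.st k l (m + 1) = S.st k l m := by
    change S.upd k l (m + 1) (S.st k l m) = S.st k l m
    unfold upd
    unfold Ev b T at h
    rw [Bool.not_eq_true] at h
    rw [h]
    rfl
  unfold w a b r T
  rw [h1]
  exact ⟨rfl, rfl, rfl, rfl, rfl⟩

theorem step_fin {m : ℕ} (h : Ev S k l m) (hr : S.r k l m = 0) : S.w k l (m + 1) = S.w k l m ∧
    S.a k l (m + 1) = S.b k l m ∧ S.b k l (m + 1) = S.b k l m + 1 ∧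
    S.r k l (m + 1) = S.b k l m ∧ S.T k l (m + 1) = m + 1 := by
  have h1 : S.st k l (m + 1) = ((S.st k l m).1, (S.st k l m).2.2.1, (S.st k l m).2.2.1 + 1,
      (S.st k l m).2.2.1, m + 1) := by
    change S.upd k l (m + 1) (S.st k l m) = _
    unfold upd
    unfold Ev b T at h
    unfold r at hr
    rw [h, hr]
    rfl
  unfold w a b r T
  rw [h1]
  exact ⟨rfl, rfl, rfl, rfl, rfl⟩

theorem step_proc {m n : ℕ} (h : Ev S k l m) (hr : S.r k l m = n + 1) :
    S.w k l (m + 1) =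
      (S.act k l n (S.w k l m) (S.a k l m) (S.b k l m) (S.T k l m) (m + 1)).1 ∧
    S.a k l (m + 1) = S.a k l m ∧
    S.b k l (m + 1) =
      (S.act k l n (S.w k l m) (S.a k l m) (S.b k l m) (S.T k l m) (m + 1)).2 ∧
    S.r k l (m + 1) = n ∧ S.T k l (m + 1) = m + 1 := by
  have h1 : S.st k l (m + 1) =
      ((S.act k l n (S.st k l m).1 (S.st k l m).2.1 (S.st k l m).2.2.1 (S.st k l m).2.2.2.2
        (m + 1)).1, (S.st k l m).2.1,
      (S.act k l n (S.st k l m).1 (S.st k l m).2.1 (S.st k l m).2.2.1 (S.st k l m).2.2.2.2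
        (m + 1)).2, n, m + 1) := by
    change S.upd k l (m + 1) (S.st k l m) = _
    unfold upd
    unfold Ev b T at h
    unfold r at hr
    rw [h, hr]
    rfl
  unfold w a b r T
  rw [h1]
  exact ⟨rfl, rfl, rfl, rfl, rfl⟩

/-- All consequences of one step. -/
theorem step_cases (m : ℕ) :
    (¬ Ev S k l m ∧ S.w k l (m + 1) = S.w k l m ∧ S.a k l (m + 1) = S.a k l m ∧
      S.b k l (m + 1) = S.b k l m ∧ S.r k l (m + 1) = S.r k l m ∧ S.T k l (m + 1) = S.T k l m) ∨
    (Ev S k l m ∧ S.r k l m = 0 ∧ S.w k l (m + 1) = S.w k l m ∧ S.a k l (m + 1) = S.b k l m ∧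
      S.b k l (m + 1) = S.b k l m + 1 ∧ S.r k l (m + 1) = S.b k l m ∧ S.T k l (m + 1) = m + 1) ∨
    (∃ n, Ev S k l m ∧ S.r k l m = n + 1 ∧ ¬ Acts S k l m n ∧ S.w k l (m + 1) = S.w k l m ∧
      S.a k l (m + 1) = S.a k l m ∧ S.b k l (m + 1) = S.b k l m ∧ S.r k l (m + 1) = n ∧
      S.T k l (m + 1) = m + 1) ∨
    (∃ n, Ev S k l m ∧ S.r k l m = n + 1 ∧ Acts S k l m n ∧
      (∀ z < S.a k l m, Nat.testBit (S.w k l m) z = Nat.testBit (S.w k l (m + 1)) z) ∧
      S.a k l (m + 1) = S.a k l m ∧ S.b k l (m + 1) = S.bb n (S.b k l m) (S.T k l m) ∧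
      S.r k l (m + 1) = n ∧ S.T k l (m + 1) = m + 1 ∧
      S.sat k l n (S.w k l (m + 1)) (S.bb n (S.b k l m) (S.T k l m)) (S.T k l m) (m + 1) =
        true) := by
  by_cases h : Ev S k l m
  · rcases hr : S.r k l m with _ | n
    · right; left
      exact ⟨h, rfl, step_fin h hr⟩
    · obtain ⟨h1, h2, h3, h4, h5⟩ := step_proc h hr
      by_cases h6 : Acts S k l m n
      · obtain ⟨h7, h8, h9⟩ := act_of_acts h6.2.2
        right; right; right
        refine ⟨n, h, rfl, h6, ?_, h2, ?_, h4, h5, ?_⟩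
        · rw [h1]; exact h8
        · rw [h3]; exact h7
        · rw [h1]; exact h9
      · have h7 := act_of_not (S := S) (k := k) (l := l) (fun h8 => h6 ⟨hr, h, h8⟩)
        rw [h7] at h1 h3
        right; right; left
        exact ⟨n, h, rfl, h6, h1, h2, h3, h4, h5⟩
  · left
    exact ⟨h, step_no h⟩

theorem T_le (m : ℕ) : S.T k l m ≤ m := by
  induction m with
  | zero => exact le_rfl
  | succ m ih =>
    rcases step_cases (S := S) (k := k) (l := l) m with
      ⟨-, -, -, -, -, h⟩ | ⟨-, -, -, -, -, -, h⟩ | ⟨n, -, -, -, -, -, -, -, h⟩ |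
      ⟨n, -, -, -, -, -, -, -, h, -⟩
    · rw [h]; omega
    · rw [h]
    · rw [h]
    · rw [h]

theorem T_mono {m m' : ℕ} (h : m ≤ m') : S.T k l m ≤ S.T k l m' := by
  induction m', h using Nat.le_induction with
  | base => exact le_rfl
  | succ m' _ ih =>
    refine ih.trans ?_
    have := T_le (S := S) (k := k) (l := l) m'
    rcases step_cases (S := S) (k := k) (l := l) m' with
      ⟨-, -, -, -, -, h⟩ | ⟨-, -, -, -, -, -, h⟩ | ⟨n, -, -, -, -, -, -, -, h⟩ |
      ⟨n, -, -, -, -, -, -, -, h, -⟩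
    · rw [h]
    · rw [h]; omega
    · rw [h]; omega
    · rw [h]; omega

theorem a_lt_b (m : ℕ) : S.a k l m < S.b k l m := by
  induction m with
  | zero => exact Nat.zero_lt_one
  | succ m ih =>
    rcases step_cases (S := S) (k := k) (l := l) m with
      ⟨-, -, h1, h2, -, -⟩ | ⟨-, -, -, h1, h2, -, -⟩ | ⟨n, -, -, -, -, h1, h2, -, -⟩ |
      ⟨n, -, -, -, -, h1, h2, -, -, -⟩
    · rw [h1, h2]; exact ih
    · rw [h1, h2]; omega
    · rw [h1, h2]; exact ih
    · rw [h1, h2]; exact ih.trans_le (bb_ge _ _ _)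

theorem coh {m m' : ℕ} (h : m ≤ m') : S.a k l m ≤ S.a k l m' ∧
    ∀ z < S.a k l m, Nat.testBit (S.w k l m) z = Nat.testBit (S.w k l m') z := by
  induction m', h using Nat.le_induction with
  | base => exact ⟨le_rfl, fun z _ => rfl⟩
  | succ m' _ ih =>
    obtain ⟨ih1, ih2⟩ := ih
    have hab := a_lt_b (S := S) (k := k) (l := l) m'
    rcases step_cases (S := S) (k := k) (l := l) m' with
      ⟨-, h0, h1, -⟩ | ⟨-, -, h0, h1, -⟩ | ⟨n, -, -, -, h0, h1, -⟩ |
      ⟨n, -, -, -, h0, h1, -⟩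
    · rw [h0, h1]; exact ⟨ih1, ih2⟩
    · rw [h0, h1]; exact ⟨ih1.trans hab.le, ih2⟩
    · rw [h0, h1]; exact ⟨ih1, ih2⟩
    · rw [h1]
      exact ⟨ih1, fun z hz => (ih2 z hz).trans (h0 z (hz.trans_le ih1))⟩

theorem exists_ev (W : S.World k l A s) (m : ℕ) : ∃ m' ≥ m, S.st k l m' = S.st k l m ∧
    Ev S k l m' := by
  -- a stage after which the waiting condition holds
  have h1 : ∀ N, ∃ M, ∀ x ≤ N, ∀ m ≥ M, S.q0 k x m ≠ 0 := by
    intro N
    induction N with
    | zero =>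
      obtain ⟨M, hM⟩ := W.exA 0
      refine ⟨M, fun x hx m hm => ?_⟩
      rw [Nat.le_zero.1 hx, S.q0_mono hm hM]
      exact hM
    | succ N ih =>
      obtain ⟨M1, h1⟩ := ih
      obtain ⟨M2, h2⟩ := W.exA (N + 1)
      refine ⟨max M1 M2, fun x hx m hm => ?_⟩
      rcases hx.lt_or_eq with h | rfl
      · exact h1 x (Nat.lt_succ_iff.1 h) m ((le_max_left _ _).trans hm)
      · rw [S.q0_mono ((le_max_right _ _).trans hm) h2]
        exact h2
  have h2 : ∀ N, ∃ M, ∀ x < N, ∀ m ≥ M, S.q0 l x m ≠ 0 := by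
    intro N
    induction N with
    | zero => exact ⟨0, fun x hx => absurd hx (Nat.not_lt_zero x)⟩
    | succ N ih =>
      obtain ⟨M1, h1⟩ := ih
      obtain ⟨M2, h2⟩ := W.exs N
      refine ⟨max M1 M2, fun x hx m hm => ?_⟩
      rcases (Nat.lt_succ_iff.1 hx).lt_or_eq with h | rfl
      · exact h1 x h m ((le_max_left _ _).trans hm)
      · rw [S.q0_mono ((le_max_right _ _).trans hm) h2]
        exact h2
  obtain ⟨M1, hM1⟩ := h1 (S.T k l m)
  obtain ⟨M2, hM2⟩ := h2 (S.b k l m)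
  have key : ∀ d m', S.st k l m' = S.st k l m → m ≤ m' → max M1 M2 ≤ m' + d →
      ∃ m'' ≥ m, S.st k l m'' = S.st k l m ∧ Ev S k l m'' := by
    intro d
    induction d with
    | zero =>
      intro m' hst hm hM
      refine ⟨m', hm, hst, ?_⟩
      unfold Ev b T
      rw [hst, waitc_iff]
      refine ⟨fun x hx => hM1 x hx _ ?_, fun z hz => hM2 z hz _ ?_⟩
      · have := le_max_left M1 M2; omega
      · have := le_max_right M1 M2; omega
    | succ d ih =>
      intro m' hst hm hM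
      by_cases h : Ev S k l m'
      · exact ⟨m', hm, hst, h⟩
      · refine ih (m' + 1) ?_ (by omega) (by omega)
        rw [← hst]
        change S.upd k l (m' + 1) (S.st k l m') = S.st k l m'
        unfold upd
        unfold Ev b T at h
        rw [Bool.not_eq_true] at h
        rw [h]
        rfl
  exact key (max M1 M2) m rfl le_rfl (Nat.le_add_left _ _)

/-- From every stage a block start is reached. -/
theorem exists_fin (W : S.World k l A s) (m : ℕ) : ∃ m' ≥ m, S.r k l m' = 0 ∧ Ev S k l m' := by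
  have key : ∀ n m, S.r k l m = n → ∃ m' ≥ m, S.r k l m' = 0 ∧ Ev S k l m' := by
    intro n
    induction n with
    | zero =>
      intro m hr
      obtain ⟨m', hm, hst, hev⟩ := exists_ev W m
      refine ⟨m', hm, ?_, hev⟩
      unfold r at hr ⊢
      rw [hst, hr]
    | succ n ih =>
      intro m hr
      obtain ⟨m', hm, hst, hev⟩ := exists_ev W m
      have hr' : S.r k l m' = n + 1 := by
        unfold r at hr ⊢
        rw [hst, hr]
      obtain ⟨m'', hm'', h⟩ := ih (m' + 1) (step_proc hev hr').2.2.2.1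
      exact ⟨m'', by omega, h⟩
  exact key _ m rfl

theorem exists_start (W : S.World k l A s) (m N : ℕ) :
    ∃ m' ≥ m, S.r k l m' = S.a k l m' ∧ N ≤ S.a k l m' := by
  induction N with
  | zero =>
    obtain ⟨m', hm, hr, hev⟩ := exists_fin W m
    obtain ⟨-, h1, -, h2, -⟩ := step_fin hev hr
    exact ⟨m' + 1, by omega, by rw [h1, h2], Nat.zero_le _⟩
  | succ N ih =>
    obtain ⟨m1, hm1, -, hN⟩ := ih
    obtain ⟨m', hm, hr, hev⟩ := exists_fin W m1
    obtain ⟨-, h1, -, h2, -⟩ := step_fin hev hr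
    refine ⟨m' + 1, by omega, by rw [h1, h2], ?_⟩
    rw [h1]
    have h3 := a_lt_b (S := S) (k := k) (l := l) m'
    have h4 := (coh (S := S) (k := k) (l := l) hm).1
    omega

/-- Satisfied requirements stay satisfied and do not act. -/
theorem sat_forever (W : S.World k l A s) {n m₀ : ℕ}
    (hno : ∀ m ≥ m₀, ∀ n' < n, ¬ Acts S k l m n') (hm₀ : Acts S k l m₀ n) :
    ∀ m > m₀, S.ts A s n (S.w k l m) (S.a k l m) (S.T k l m) ∨
      (S.r k l m ≤ n ∧ S.ts A s n (S.w k l m) (S.b k l m) (S.T k l m)) := by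
  intro m hm
  induction m, hm using Nat.le_induction with
  | base =>
    right
    obtain ⟨hr, hev, hact⟩ := hm₀
    obtain ⟨h1, -, h3, h4, h5⟩ := step_proc hev hr
    obtain ⟨h6, h7, h8⟩ := act_of_acts hact
    refine ⟨by rw [h4], ?_⟩
    rw [h1, h3, h6]
    have h9 := (sat_iff W hev n _ _ (fun hn => by rw [bb_even _ _ hn])).1 h8
    exact ts_mono h9 (fun z _ => rfl) le_rfl (T_mono (Nat.le_succ m₀))
  | succ m hm ih =>
    have hT := T_mono (S := S) (k := k) (l := l) (Nat.le_succ m)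
    rcases ih with ih | ⟨ihr, ih⟩
    · left
      obtain ⟨h1, h2⟩ := coh (S := S) (k := k) (l := l) (Nat.le_succ m)
      exact ts_mono ih h2 h1 hT
    · rcases step_cases (S := S) (k := k) (l := l) m with
        ⟨-, h0, h1, h2, h3, h4⟩ | ⟨-, hr, h0, h1, h2, h3, h4⟩ |
        ⟨n', -, hr, -, h0, h1, h2, h3, h4⟩ | ⟨n', -, hr, hact, h0, h1, h2, h3, h4, -⟩
      · right
        rw [h0, h2, h3, h4]
        exact ⟨ihr, ih⟩
      · left
        rw [h0, h1]
        exact ts_mono ih (fun z _ => rfl) le_rfl hT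
      · right
        rw [h0, h2, h3]
        exact ⟨by omega, ts_mono ih (fun z _ => rfl) le_rfl hT⟩
      · exact absurd hact (hno m (by omega) n' (by omega))

theorem finite_injury (W : S.World k l A s) (n : ℕ) :
    ∃ m₀, ∀ m ≥ m₀, ∀ n' ≤ n, ¬ Acts S k l m n' := by
  induction n with
  | zero =>
    by_cases h : ∃ m, Acts S k l m 0
    · obtain ⟨m, hm⟩ := h
      refine ⟨m + 1, fun m' hm' n' hn' hact => ?_⟩
      obtain rfl : n' = 0 := by omega
      rcases sat_forever W (fun _ _ n' hn' => absurd hn' (Nat.not_lt_zero n')) hm m' hm' with h | h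
      · have h1 := ts_mono h (fun z _ => rfl) (a_lt_b (S := S) (k := k) (l := l) m').le le_rfl
        have h2 := (sat_iff W hact.2.1 0 _ _ (fun _ => le_rfl)).2 h1
        rw [hact.2.2.1] at h2
        cases h2
      · rw [hact.1] at h
        omega
    · push Not at h
      exact ⟨0, fun m _ n' hn' => by rw [Nat.le_zero.1 hn']; exact h m⟩
  | succ n ih =>
    obtain ⟨m₁, hm₁⟩ := ih
    by_cases h : ∃ m ≥ m₁, Acts S k l m (n + 1)
    · obtain ⟨m, hm, hmact⟩ := h
      refine ⟨m + 1, fun m' hm' n' hn' hact => ?_⟩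
      rcases hn'.lt_or_eq with h1 | rfl
      · exact hm₁ m' (by omega) n' (by omega) hact
      · rcases sat_forever W (fun m'' hm'' n' hn' => hm₁ m'' (by omega) n' (by omega)) hmact m'
          hm' with h | h
        · have h1 := ts_mono h (fun z _ => rfl) (a_lt_b (S := S) (k := k) (l := l) m').le le_rfl
          have h2 := (sat_iff W hact.2.1 (n + 1) _ _ (fun _ => le_rfl)).2 h1
          rw [hact.2.2.1] at h2
          cases h2
        · rw [hact.1] at h
          omega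
    · push Not at h
      refine ⟨m₁, fun m hm n' hn' => ?_⟩
      rcases hn'.lt_or_eq with h1 | rfl
      · exact hm₁ m hm n' (by omega)
      · exact h m hm

end Sys

end Pool.Agent.Helper672.Blum
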