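import Pool.Agent.Helper672.Blum.Final

/-!
# Relative Blum measures exist
-/

namespace Pool.Agent.Helper672.Blum

/-- The first `k` bits of the oracle as a number. -/
def rs (X : ℕ → Bool) (k : ℕ) : ℕ := Nat.rec 0 (fun j r => r + (X j).toNat * 2 ^ j) k

theorem rs_succ (X : ℕ → Bool) (k : ℕ) : rs X (k + 1) = rs X k + (X k).toNat * 2 ^ k := rfl

theorem rs_lt (X : ℕ → Bool) (k : ℕ) : rs X k < 2 ^ k := by
  induction k with
  | zero => exact Nat.zero_lt_one
  | succ k ih =>
    rw [rs_succ, pow_succ]
    have : (X k).toNat ≤ 1 := Bool.toNat_le _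
    nlinarith [Nat.two_pow_pos k]

theorem rs_mod (X : ℕ → Bool) {k y : ℕ} (h : k ≤ y) : rs X y % 2 ^ k = rs X k := by
  induction y, h using Nat.le_induction with
  | base => exact Nat.mod_eq_of_lt (rs_lt X k)
  | succ y hy ih =>
    rw [rs_succ]
    obtain ⟨d, rfl⟩ := Nat.exists_eq_add_of_le hy
    have : (X (k + d)).toNat * 2 ^ (k + d) = 2 ^ k * ((X (k + d)).toNat * 2 ^ d) := by
      rw [pow_add]; ring
    rw [this, Nat.add_mul_mod_self_left, ih]

theorem testBit_rs (X : ℕ → Bool) {k z : ℕ} (h : z < k) : Nat.testBit (rs X k) z = X z := by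
  induction k with
  | zero => exact absurd h (Nat.not_lt_zero z)
  | succ k ih =>
    rw [rs_succ]
    cases hb : X k
    · simp only [Bool.toNat_false, zero_mul, add_zero]
      rcases (Nat.lt_succ_iff.1 h).lt_or_eq with h1 | rfl
      · exact ih h1
      · rw [Nat.testBit_lt_two_pow (rs_lt X z), hb]
    · simp only [Bool.toNat_true, one_mul]
      rcases (Nat.lt_succ_iff.1 h).lt_or_eq with h1 | rfl
      · rw [Nat.add_comm, Nat.testBit_two_pow_add_gt h1]
        exact ih h1
      · rw [Nat.add_comm, Nat.testBit_two_pow_add_eq, Nat.testBit_lt_two_pow (rs_lt X z), hb]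
        rfl

/-- Total functionals of the form `H (G (X; n), n)`. -/
theorem OPartrec.tot {H : ℕ → ℕ} (hH : Computable H) {G : (ℕ → Bool) → ℕ → ℕ}
    (hG : OPartrec (fun X n => Part.some (G X n))) :
    OPartrec (fun X n => Part.some (H (Nat.pair (G X n) n))) := by
  have hid : OPartrec (fun _ n => Part.some n) :=
    OPartrec.of_partrec (Partrec.nat_iff.1 Computable.id.partrec)
  have h1 := OPartrec.comp (OPartrec.of_partrec (Partrec.nat_iff.1 hH.partrec))
    (OPartrec.pair hG hid)
  have h2 : (fun (X : ℕ → Bool) (n : ℕ) => ((Part.some (G X n)).bind fun a =>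
      (Part.some n).map fun b => Nat.pair a b).bind fun m => Part.some (H m)) =
      fun X n => Part.some (H (Nat.pair (G X n) n)) := by
    funext X n
    rw [Part.bind_some, Part.map_some, Part.bind_some]
  rw [← h2]
  exact h1

theorem OPartrec.precomp {H : ℕ → ℕ} (hH : Computable H) {Ψ : (ℕ → Bool) → ℕ →. ℕ}
    (hΨ : OPartrec Ψ) : OPartrec (fun X n => Ψ X (H n)) := by
  have h1 := OPartrec.comp hΨ (OPartrec.of_partrec (Partrec.nat_iff.1 hH.partrec))
  have h2 : (fun (X : ℕ → Bool) (n : ℕ) => (Part.some (H n)).bind (Ψ X)) =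
      fun X n => Ψ X (H n) := by
    funext X n
    exact Part.bind_some (H n) (Ψ X)
  rw [← h2]
  exact h1

theorem OPartrec.rs : OPartrec (fun X n => Part.some (rs X n)) := by
  have hH : Computable (fun n : ℕ => n.unpair.2.unpair.2.unpair.2 +
      n.unpair.1 * 2 ^ n.unpair.2.unpair.2.unpair.1) := by
    have h1 : Computable (fun n : ℕ => n.unpair.2.unpair.2.unpair.2) :=
      comp_unpair2 (comp_unpair2 (comp_unpair2 Computable.id))
    have h2 : Computable (fun n : ℕ => n.unpair.1) := comp_unpair1 Computable.id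
    have h3 : Computable (fun n : ℕ => n.unpair.2.unpair.2.unpair.1) :=
      comp_unpair1 (comp_unpair2 (comp_unpair2 Computable.id))
    exact comp_add h1 (Primrec.nat_mul.to_comp.comp h2 (comp_two_pow h3))
  -- the step
  have hX : OPartrec (fun X n => Part.some (X n.unpair.2.unpair.1).toNat) :=
    OPartrec.precomp (H := fun n : ℕ => n.unpair.2.unpair.1)
      (comp_unpair1 (comp_unpair2 Computable.id)) OPartrec.oracle
  have hg : OPartrec (fun X n => Part.some (n.unpair.2.unpair.2 +
      (X n.unpair.2.unpair.1).toNat * 2 ^ n.unpair.2.unpair.1)) := by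
    have h1 := OPartrec.tot hH hX
    simpa only [Nat.unpair_pair] using h1
  have h2 := OPartrec.precomp (H := fun n : ℕ => Nat.pair 0 n)
    (comp_pair (Computable.const 0) Computable.id) (OPartrec.prec OPartrec.zero hg)
  have h3 : (fun (X : ℕ → Bool) (n : ℕ) => Nat.rec (motive := fun _ => Part ℕ)
      (Part.some 0 : Part ℕ) (fun y IH => IH.bind fun i =>
        Part.some ((Nat.pair (Nat.pair 0 n).unpair.1 (Nat.pair y i)).unpair.2.unpair.2 +
          (X (Nat.pair (Nat.pair 0 n).unpair.1 (Nat.pair y i)).unpair.2.unpair.1).toNat *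
            2 ^ (Nat.pair (Nat.pair 0 n).unpair.1 (Nat.pair y i)).unpair.2.unpair.1))
      (Nat.pair 0 n).unpair.2) = fun X n => Part.some (Blum.rs X n) := by
    funext X n
    simp only [Nat.unpair_pair]
    induction n with
    | zero => rfl
    | succ n ih =>
      dsimp only
      rw [ih, Part.bind_some]
      rfl
  rw [← h3]
  exact h2

open Nat.Partrec (Code)

/-- Clocked evaluation of the code `i` on the first bits of the oracle. -/
def vl (i r K x : ℕ) : ℕ :=
  (Code.evaln K.unpair.2 (Denumerable.ofNat Code i)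
    (Nat.pair (Nat.pair (r % 2 ^ K.unpair.1) K.unpair.1) x)).getD 0

theorem comp_vl {α : Type*} [Primcodable α] {i r K x : α → ℕ} (hi : Computable i)
    (hr : Computable r) (hK : Computable K) (hx : Computable x) :
    Computable fun a => vl (i a) (r a) (K a) (x a) := by
  have h1 : Computable (fun a => Denumerable.ofNat Code (i a)) :=
    (Primrec.ofNat Code).to_comp.comp hi
  have h2 : Computable (fun a => Nat.pair (Nat.pair (r a % 2 ^ (K a).unpair.1) (K a).unpair.1)
      (x a)) :=
    comp_pair (comp_pair (comp_mod hr (comp_two_pow (comp_unpair1 hK))) (comp_unpair1 hK)) hx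
  have h3 := Code.primrec_evaln.to_comp.comp (((comp_unpair2 hK).pair h1).pair h2)
  exact (Primrec.option_getD.to_comp).comp h3 (Computable.const 0)

/-- The measure. -/
def phi (i : ℕ) (X : ℕ → Bool) (x : ℕ) : Part ℕ :=
  (Nat.rfind fun K => Part.some (decide (vl i (rs X K) K x ≠ 0))).map
    fun K => vl i (rs X K) K x - 1

def cPhi (i : ℕ) (X : ℕ → Bool) (x : ℕ) : Part ℕ :=
  Nat.rfind fun K => Part.some (decide (vl i (rs X K) K x ≠ 0))

theorem rs_mod_unpair (X : ℕ → Bool) (K : ℕ) : rs X K % 2 ^ K.unpair.1 = rs X K.unpair.1 :=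
  rs_mod X (Nat.unpair_left_le K)

theorem phi_acceptable (Ψ : (ℕ → Bool) → ℕ →. ℕ) (hΨ : OPartrec Ψ) :
    ∃ h : ℕ → ℕ, Computable h ∧ ∀ i X x, phi (h i) X x = Ψ X (Nat.pair i x) := by
  obtain ⟨E, hE⟩ := exists_approx hΨ
  obtain ⟨sm, hsm, hsm2⟩ := Code.smn
  have hG : Computable (fun n : ℕ => ((E (Nat.testBit n.unpair.2.unpair.1.unpair.1)
      n.unpair.2.unpair.1.unpair.2 (Nat.pair n.unpair.1 n.unpair.2.unpair.2)).map
        fun v => v + 1).getD 0) := by
    have hw : Computable (fun n : ℕ => n.unpair.2.unpair.1.unpair.1) :=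
      comp_unpair1 (comp_unpair1 (comp_unpair2 Computable.id))
    have hk : Computable (fun n : ℕ => n.unpair.2.unpair.1.unpair.2) :=
      comp_unpair2 (comp_unpair1 (comp_unpair2 Computable.id))
    have hn : Computable (fun n : ℕ => Nat.pair n.unpair.1 n.unpair.2.unpair.2) :=
      comp_pair (comp_unpair1 Computable.id) (comp_unpair2 (comp_unpair2 Computable.id))
    have h1 := hE.comp' hw hk hn
    have h2 : Computable₂ (fun (_ : ℕ) (v : ℕ) => v + 1) :=
      comp_add Computable.snd (Computable.const 1)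
    exact (Primrec.option_getD.to_comp).comp (Computable.option_map h1 h2) (Computable.const 0)
  obtain ⟨c, hc⟩ := Code.exists_code.1 (Partrec.nat_iff.1 hG.partrec)
  refine ⟨fun i => Encodable.encode (sm c i), ?_, fun i X x => ?_⟩
  · exact Computable.encode.comp (hsm.comp (Computable.const c) Computable.id)
  · have heval : ∀ w k, Code.eval (sm c i) (Nat.pair (Nat.pair w k) x) =
        Part.some (((E (Nat.testBit w) k (Nat.pair i x)).map fun v => v + 1).getD 0) := by
      intro w k
      rw [hsm2, hc]
      simp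
    have hsound : ∀ K, vl (Encodable.encode (sm c i)) (rs X K) K x ≠ 0 →
        vl (Encodable.encode (sm c i)) (rs X K) K x - 1 ∈ Ψ X (Nat.pair i x) := by
      intro K hK
      unfold vl at hK ⊢
      rw [Denumerable.ofNat_encode, rs_mod_unpair] at hK ⊢
      cases hev : Code.evaln K.unpair.2 (sm c i)
        (Nat.pair (Nat.pair (rs X K.unpair.1) K.unpair.1) x) with
      | none => rw [hev] at hK; exact absurd rfl hK
      | some v =>
        rw [hev] at hK
        have h1 := Code.evaln_sound (Option.mem_def.2 hev)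
        rw [heval, Part.mem_some_iff] at h1
        rw [Option.getD_some] at hK ⊢
        cases hEv : E (Nat.testBit (rs X K.unpair.1)) K.unpair.1 (Nat.pair i x) with
        | none => rw [hEv] at h1; exact absurd h1 hK
        | some u =>
          rw [hEv, Option.map_some, Option.getD_some] at h1
          rw [h1, Nat.add_sub_cancel]
          rw [hE.loc _ X _ _ fun z hz => testBit_rs X hz] at hEv
          exact hE.sound _ _ _ _ hEv
    have hcompl : ∀ u ∈ Ψ X (Nat.pair i x), ∃ K,
        vl (Encodable.encode (sm c i)) (rs X K) K x ≠ 0 := by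
      intro u hu
      obtain ⟨k, hk⟩ := hE.compl _ _ _ hu
      have h1 : u + 1 ∈ Code.eval (sm c i) (Nat.pair (Nat.pair (rs X k) k) x) := by
        rw [heval, hE.loc _ X _ _ fun z hz => testBit_rs X hz, hk]
        exact Part.mem_some _
      obtain ⟨t, ht⟩ := Code.evaln_complete.1 h1
      refine ⟨Nat.pair k t, ?_⟩
      unfold vl
      rw [Denumerable.ofNat_encode, rs_mod_unpair, Nat.unpair_pair, Option.mem_def.1 ht]
      exact Nat.succ_ne_zero u
    refine Part.ext fun v => ⟨fun hv => ?_, fun hv => ?_⟩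
    · obtain ⟨K, hK, rfl⟩ := (Part.mem_map_iff _).1 hv
      have h1 := (Nat.mem_rfind.1 hK).1
      rw [Part.mem_some_iff] at h1
      exact hsound K (of_decide_eq_true h1.symm)
    · have hex := hcompl v hv
      classical
      have h1 : Nat.find hex ∈ Nat.rfind fun K => Part.some (decide
          (vl (Encodable.encode (sm c i)) (rs X K) K x ≠ 0)) := by
        refine Nat.mem_rfind.2 ⟨?_, fun {m} hm => ?_⟩
        · rw [Part.mem_some_iff]
          exact (decide_eq_true (Nat.find_spec hex)).symm
        · rw [Part.mem_some_iff]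
          exact (decide_eq_false (Nat.find_min hex hm)).symm
      refine (Part.mem_map_iff _).2 ⟨_, h1, ?_⟩
      exact Part.mem_unique (hsound _ (Nat.find_spec hex)) hv

theorem phi_universal : OPartrec (fun X n => phi n.unpair.1 X n.unpair.2) := by
  have hrs2 : OPartrec (fun X n => Part.some (rs X n.unpair.2)) :=
    OPartrec.precomp (H := fun n : ℕ => n.unpair.2) (comp_unpair2 Computable.id) OPartrec.rs
  -- arguments `⟨r, ⟨n, K⟩⟩`
  have hv : Computable (fun m : ℕ => vl m.unpair.2.unpair.1.unpair.1 m.unpair.1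
      m.unpair.2.unpair.2 m.unpair.2.unpair.1.unpair.2) :=
    comp_vl (comp_unpair1 (comp_unpair1 (comp_unpair2 Computable.id)))
      (comp_unpair1 Computable.id) (comp_unpair2 (comp_unpair2 Computable.id))
      (comp_unpair2 (comp_unpair1 (comp_unpair2 Computable.id)))
  have h1 : OPartrec (fun X n => Part.some (1 - vl n.unpair.1.unpair.1 (rs X n.unpair.2)
      n.unpair.2 n.unpair.1.unpair.2)) := by
    have := OPartrec.tot (comp_sub (Computable.const 1) hv) hrs2
    simpa only [Nat.unpair_pair] using this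
  have h2 : OPartrec (fun X n => Part.some (vl n.unpair.1.unpair.1 (rs X n.unpair.2)
      n.unpair.2 n.unpair.1.unpair.2 - 1)) := by
    have := OPartrec.tot (comp_sub hv (Computable.const 1)) hrs2
    simpa only [Nat.unpair_pair] using this
  have hid : OPartrec (fun _ n => Part.some n) :=
    OPartrec.of_partrec (Partrec.nat_iff.1 Computable.id.partrec)
  have h3 := OPartrec.comp h2 (OPartrec.pair hid (OPartrec.rfind h1))
  refine Eq.mp (congrArg OPartrec ?_) h3
  funext X n
  have h4 : (fun m : ℕ => (Part.some (1 - vl (Nat.pair n m).unpair.1.unpair.1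
      (rs X (Nat.pair n m).unpair.2) (Nat.pair n m).unpair.2
      (Nat.pair n m).unpair.1.unpair.2)).map fun v => decide (v = 0)) =
      fun m => Part.some (decide (vl n.unpair.1 (rs X m) m n.unpair.2 ≠ 0)) := by
    funext m
    rw [Part.map_some, Nat.unpair_pair]
    dsimp only
    congr 1
    by_cases h : vl n.unpair.1 (rs X m) m n.unpair.2 = 0
    · simp [h]
    · have : 1 - vl n.unpair.1 (rs X m) m n.unpair.2 = 0 := by omega
      simp [h, this]
  have h5 : ((Part.some n).bind fun a => (cPhi n.unpair.1 X n.unpair.2).map fun b =>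
      Nat.pair a b).bind (fun n => Part.some (vl n.unpair.1.unpair.1 (rs X n.unpair.2)
        n.unpair.2 n.unpair.1.unpair.2 - 1)) = phi n.unpair.1 X n.unpair.2 := by
    rw [Part.bind_some]
    unfold phi cPhi
    refine Part.ext fun v => ?_
    simp only [Part.mem_map_iff, Part.mem_bind_iff, Part.mem_some_iff]
    constructor
    · rintro ⟨_, ⟨K, hK, rfl⟩, rfl⟩
      exact ⟨K, hK, by simp⟩
    · rintro ⟨K, hK, rfl⟩
      exact ⟨_, ⟨K, hK, rfl⟩, by simp⟩
  rw [← h5]
  unfold cPhi
  rw [← h4]

theorem cPhi_decidable : ∃ D : (ℕ → Bool) → ℕ →. ℕ, OPartrec D ∧ ∀ i X x y,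
    (y ∈ cPhi i X x → D X (Nat.pair i (Nat.pair x y)) = Part.some 1) ∧
    (y ∉ cPhi i X x → D X (Nat.pair i (Nat.pair x y)) = Part.some 0) := by
  -- argument `⟨r, ⟨i, ⟨x, y⟩⟩⟩`
  let H : ℕ → ℕ := fun m => (!(decide (vl m.unpair.2.unpair.1 m.unpair.1
      m.unpair.2.unpair.2.unpair.2 m.unpair.2.unpair.2.unpair.1 = 0)) &&
    ball m.unpair.2.unpair.2.unpair.2 (fun K => decide (vl m.unpair.2.unpair.1 m.unpair.1
      K m.unpair.2.unpair.2.unpair.1 = 0))).toNat
  have hH : Computable H := by
    have hi : Computable (fun m : ℕ => m.unpair.2.unpair.1) :=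
      comp_unpair1 (comp_unpair2 Computable.id)
    have hr : Computable (fun m : ℕ => m.unpair.1) := comp_unpair1 Computable.id
    have hy : Computable (fun m : ℕ => m.unpair.2.unpair.2.unpair.2) :=
      comp_unpair2 (comp_unpair2 (comp_unpair2 Computable.id))
    have hx : Computable (fun m : ℕ => m.unpair.2.unpair.2.unpair.1) :=
      comp_unpair1 (comp_unpair2 (comp_unpair2 Computable.id))
    have h1 : Computable₂ (fun (m K : ℕ) => decide (vl m.unpair.2.unpair.1 m.unpair.1
      K m.unpair.2.unpair.2.unpair.1 = 0)) :=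
      comp_eq (comp_vl (hi.comp Computable.fst) (hr.comp Computable.fst) Computable.snd
        (hx.comp Computable.fst)) (Computable.const 0)
    exact comp_toNat (comp_and (comp_not (comp_eq (comp_vl hi hr hy hx) (Computable.const 0)))
      (comp_ball hy h1))
  have hrs2 : OPartrec (fun X n => Part.some (rs X n.unpair.2.unpair.2)) :=
    OPartrec.precomp (H := fun n : ℕ => n.unpair.2.unpair.2)
      (comp_unpair2 (comp_unpair2 Computable.id)) OPartrec.rs
  refine ⟨_, OPartrec.tot hH hrs2, fun i X x y => ?_⟩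
  have hvl : ∀ K ≤ y, vl i (rs X y) K x = vl i (rs X K) K x := by
    intro K hK
    unfold vl
    rw [rs_mod_unpair, rs_mod X ((Nat.unpair_left_le K).trans hK)]
  have key : y ∈ cPhi i X x ↔ (!(decide (vl i (rs X y) y x = 0)) &&
      ball y (fun K => decide (vl i (rs X y) K x = 0))) = true := by
    rw [Bool.and_eq_true, ball_iff, Bool.not_eq_true', decide_eq_false_iff_not]
    unfold cPhi
    refine Nat.mem_rfind.trans ?_
    simp only [Part.mem_some_iff]
    constructor
    · rintro ⟨h1, h2⟩
      refine ⟨of_decide_eq_true h1.symm, fun K hK => ?_⟩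
      have h3 := of_decide_eq_false (h2 hK).symm
      rw [not_not] at h3
      rw [hvl K hK.le, h3]
      rfl
    · rintro ⟨h1, h2⟩
      refine ⟨(decide_eq_true h1).symm, fun {K} hK => ?_⟩
      have h3 := of_decide_eq_true (h2 K hK)
      rw [hvl K hK.le] at h3
      rw [h3]
      rfl
  simp only [H, Nat.unpair_pair]
  constructor
  · intro h
    rw [key.1 h]
    rfl
  · intro h
    have h1 := (not_congr key).1 h
    rw [Bool.not_eq_true] at h1
    rw [h1]
    rfl

/-- There is a relative Blum measure. -/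
theorem relBlum_nonempty : Nonempty RelBlum :=
  ⟨{ φ := phi
     Φ := cPhi
     universal := phi_universal
     acceptable := phi_acceptable
     dom_iff := fun _ _ _ => Iff.rfl
     decidable := cPhi_decidable }⟩

end Pool.Agent.Helper672.Blum
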