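import Pool.Agent.Helper672.Blum.Limit

/-!
# The non-helping set
-/

namespace Pool.Agent.Helper672.Blum

/-- Partial recursive functions are partial recursive functionals. -/
theorem OPartrec.of_partrec {f : ℕ →. ℕ} (hf : Nat.Partrec f) : OPartrec (fun _ => f) := by
  induction hf with
  | zero => exact OPartrec.zero
  | succ => exact OPartrec.succ
  | left => exact OPartrec.left
  | right => exact OPartrec.right
  | pair _ _ ihf ihg =>
    have h := OPartrec.pair ihf ihg
    convert h using 3
    simp [Seq.seq]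
  | comp _ _ ihf ihg => exact OPartrec.comp ihf ihg
  | prec _ _ ihf ihg => exact OPartrec.prec ihf ihg
  | rfind _ ih => exact OPartrec.rfind ih

theorem testBit_zero_eq : Nat.testBit 0 = noOracle := by
  funext z
  exact Nat.zero_testBit z

namespace Sys

variable (S : Sys)

/-- The string `w'` extends the decided part and gives a value. -/
def pr (k l i x y w' : ℕ) : Bool :=
  ball (len S k l i (max x y)) (fun z => Nat.testBit (S.w k l (max x y)) z == Nat.testBit w' z) &&
    !(decide (S.Q (Nat.testBit w') i x y = 0))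

/-- Bound of the search. -/
def bd (k l i x y : ℕ) : ℕ := 2 ^ (S.u i x y + len S k l i (max x y))

def P (p x y : ℕ) : Bool :=
  bif decide (x < p.unpair.2.unpair.2.unpair.2) then
    !(decide (S.q0 p.unpair.2.unpair.1 x y = 0))
  else bex (S.bd p.unpair.2.unpair.1 p.unpair.2.unpair.2.unpair.1 p.unpair.1 x y)
    (S.pr p.unpair.2.unpair.1 p.unpair.2.unpair.2.unpair.1 p.unpair.1 x y)

def V (p x y : ℕ) : ℕ :=
  bif decide (x < p.unpair.2.unpair.2.unpair.2) then S.q0 p.unpair.2.unpair.1 x y - 1
  else S.Q (Nat.testBit (bmin (S.bd p.unpair.2.unpair.1 p.unpair.2.unpair.2.unpair.1 p.unpair.1 x y)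
    (S.pr p.unpair.2.unpair.1 p.unpair.2.unpair.2.unpair.1 p.unpair.1 x y))) p.unpair.1 x y - 1

section Comp

variable {α : Type*} [Primcodable α]

theorem comp_len {k l i c : α → ℕ} (hk : Computable k) (hl : Computable l) (hi : Computable i)
    (hc : Computable c) : Computable fun a => len S (k a) (l a) (i a) (c a) := by
  have hst := S.comp_st hk hl hc
  have h1 : Computable fun a => S.a (k a) (l a) (c a) :=
    Computable.fst.comp (Computable.snd.comp hst)
  have h2 : Computable fun a => S.b (k a) (l a) (c a) :=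
    Computable.fst.comp (Computable.snd.comp (Computable.snd.comp hst))
  have h3 : Computable fun a => S.r (k a) (l a) (c a) :=
    Computable.fst.comp (Computable.snd.comp (Computable.snd.comp (Computable.snd.comp hst)))
  have h4 : Computable fun a => 2 * i a + 3 :=
    comp_add ((Primrec.nat_mul.comp (Primrec.const 2) Primrec.id).to_comp.comp hi)
      (Computable.const 3)
  exact Computable.cond (comp_le h4 h3) h1 h2

theorem comp_w {k l c : α → ℕ} (hk : Computable k) (hl : Computable l) (hc : Computable c) :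
    Computable fun a => S.w (k a) (l a) (c a) := Computable.fst.comp (S.comp_st hk hl hc)

theorem comp_pr {k l i x y w' : α → ℕ} (hk : Computable k) (hl : Computable l)
    (hi : Computable i) (hx : Computable x) (hy : Computable y) (hw : Computable w') :
    Computable fun a => S.pr (k a) (l a) (i a) (x a) (y a) (w' a) := by
  have hc := comp_max hx hy
  have h1 : Computable₂ (fun (a : α) (z : ℕ) =>
      Nat.testBit (S.w (k a) (l a) (max (x a) (y a))) z == Nat.testBit (w' a) z) :=
    comp_beq (comp_testBit ((S.comp_w hk hl hc).comp Computable.fst) Computable.snd)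
      (comp_testBit (hw.comp Computable.fst) Computable.snd)
  exact comp_and (comp_ball (S.comp_len hk hl hi hc) h1)
    (comp_not (comp_eq (S.comp_Q hw hi hx hy) (Computable.const 0)))

theorem comp_bd {k l i x y : α → ℕ} (hk : Computable k) (hl : Computable l)
    (hi : Computable i) (hx : Computable x) (hy : Computable y) :
    Computable fun a => S.bd (k a) (l a) (i a) (x a) (y a) :=
  comp_two_pow (comp_add (S.comp_u hi hx hy) (S.comp_len hk hl hi (comp_max hx hy)))

theorem comp_P {p x y : α → ℕ} (hp : Computable p) (hx : Computable x) (hy : Computable y) :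
    Computable fun a => S.P (p a) (x a) (y a) := by
  have hi := comp_unpair1 hp
  have hk := comp_unpair1 (comp_unpair2 hp)
  have hl := comp_unpair1 (comp_unpair2 (comp_unpair2 hp))
  have hm := comp_unpair2 (comp_unpair2 (comp_unpair2 hp))
  have h1 : Computable₂ (fun (a : α) (w : ℕ) => S.pr (p a).unpair.2.unpair.1
      (p a).unpair.2.unpair.2.unpair.1 (p a).unpair.1 (x a) (y a) w) :=
    S.comp_pr (hk.comp Computable.fst) (hl.comp Computable.fst) (hi.comp Computable.fst)
      (hx.comp Computable.fst) (hy.comp Computable.fst) Computable.snd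
  exact Computable.cond (comp_lt hx hm) (comp_not (comp_eq (S.comp_q0 hk hx hy)
    (Computable.const 0))) (comp_bex (S.comp_bd hk hl hi hx hy) h1)

theorem comp_V {p x y : α → ℕ} (hp : Computable p) (hx : Computable x) (hy : Computable y) :
    Computable fun a => S.V (p a) (x a) (y a) := by
  have hi := comp_unpair1 hp
  have hk := comp_unpair1 (comp_unpair2 hp)
  have hl := comp_unpair1 (comp_unpair2 (comp_unpair2 hp))
  have hm := comp_unpair2 (comp_unpair2 (comp_unpair2 hp))
  have h1 : Computable₂ (fun (a : α) (w : ℕ) => S.pr (p a).unpair.2.unpair.1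
      (p a).unpair.2.unpair.2.unpair.1 (p a).unpair.1 (x a) (y a) w) :=
    S.comp_pr (hk.comp Computable.fst) (hl.comp Computable.fst) (hi.comp Computable.fst)
      (hx.comp Computable.fst) (hy.comp Computable.fst) Computable.snd
  exact Computable.cond (comp_lt hx hm)
    (comp_sub (S.comp_q0 hk hx hy) (Computable.const 1))
    (comp_sub (S.comp_Q (comp_bmin (S.comp_bd hk hl hi hx hy) h1) hi hx hy) (Computable.const 1))

end Comp

/-- The oracle-free programs that replace oracle programs. -/
def F (p x : ℕ) : Part ℕ :=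
  (Nat.rfind (fun y => Part.some (S.P p x y))).map (S.V p x)

theorem partrec_F : Nat.Partrec (fun n => S.F n.unpair.1 n.unpair.2) := by
  have h1 : Computable₂ (fun n y : ℕ => S.P n.unpair.1 n.unpair.2 y) :=
    S.comp_P (comp_unpair1 Computable.fst) (comp_unpair2 Computable.fst) Computable.snd
  have h2 : Computable₂ (fun n y : ℕ => S.V n.unpair.1 n.unpair.2 y) :=
    S.comp_V (comp_unpair1 Computable.fst) (comp_unpair2 Computable.fst) Computable.snd
  exact Partrec.nat_iff.1 (Partrec.map (Partrec.rfind h1.partrec₂) h2)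

variable {S} {k l : ℕ} {A : ℕ → Bool} {s : ℕ → ℕ}

theorem mem_F {p x y v : ℕ} (h : S.P p x y = true) (hmin : ∀ y' < y, S.P p x y' = false)
    (hv : S.V p x y = v) : S.F p x = Part.some v := by
  have h1 : y ∈ Nat.rfind (fun y => Part.some (S.P p x y)) := by
    refine Nat.mem_rfind.2 ⟨?_, fun {m} hm => ?_⟩
    · rw [h]; exact Part.mem_some _
    · rw [hmin m hm]; exact Part.mem_some _
  refine Part.eq_some_iff.2 ?_
  rw [← hv]
  exact Part.mem_map _ h1

/-- The programs are correct. -/
theorem F_correct (W : S.World k l A s) {i m₀ : ℕ} {B : ℕ → Bool}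
    (hm₀ : ∀ c ≥ m₀, (∀ z < len S k l i c, Nat.testBit (S.w k l c) z = B z) ∧
        ∀ f : ℕ → Bool, (∀ z < len S k l i c, Nat.testBit (S.w k l c) z = f z) →
          ∀ x ≤ c, ∀ y ≤ c, S.Q f i x y ≠ 0 → S.Q f i x y = (A x).toNat + 1)
    (hdef : ∀ x, ∃ y, S.Q B i x y ≠ 0) :
    (∀ x, S.F (Nat.pair i (Nat.pair k (Nat.pair l m₀))) x = Part.some (A x).toNat) ∧
    ∀ x ≥ m₀, ∀ y, S.Q B i x y ≠ 0 → S.P (Nat.pair i (Nat.pair k (Nat.pair l m₀))) x y = true := by
  have hP2 : ∀ x ≥ m₀, ∀ y, S.Q B i x y ≠ 0 →
      S.P (Nat.pair i (Nat.pair k (Nat.pair l m₀))) x y = true := by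
    intro x hx y hy
    unfold P
    simp only [Nat.unpair_pair]
    rw [decide_eq_false (not_lt.2 hx), cond_false, bex_iff]
    obtain ⟨w', hw', hw'f⟩ := exists_bits B (S.u i x y + len S k l i (max x y))
    refine ⟨w', hw', ?_⟩
    unfold pr
    rw [Bool.and_eq_true, ball_iff]
    refine ⟨fun z hz => ?_, ?_⟩
    · rw [beq_iff_eq, hw'f z (by omega)]
      exact (hm₀ (max x y) (hx.trans (le_max_left _ _))).1 z hz
    · have h1 : S.Q (Nat.testBit w') i x y = S.Q B i x y :=
        S.loc _ _ _ _ _ fun z hz => hw'f z (by omega)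
      rw [h1]
      simpa using hy
  refine ⟨fun x => ?_, hP2⟩
  have hex : ∃ y, S.P (Nat.pair i (Nat.pair k (Nat.pair l m₀))) x y = true := by
    rcases lt_or_ge x m₀ with hx | hx
    · obtain ⟨y, hy⟩ := W.exA x
      refine ⟨y, ?_⟩
      unfold P
      simp only [Nat.unpair_pair]
      rw [decide_eq_true hx, cond_true]
      simpa using hy
    · obtain ⟨y, hy⟩ := hdef x
      exact ⟨y, hP2 x hx y hy⟩
  refine mem_F (Nat.find_spec hex) (fun y' hy' => ?_) ?_
  · have := Nat.find_min hex hy'
    rwa [Bool.not_eq_true] at this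
  · have h0 := Nat.find_spec hex
    set y := Nat.find hex
    unfold P at h0
    unfold V
    simp only [Nat.unpair_pair] at h0 ⊢
    rcases lt_or_ge x m₀ with hx | hx
    · rw [decide_eq_true hx, cond_true] at h0 ⊢
      rw [W.valA x y (by simpa using h0), Nat.add_sub_cancel]
    · rw [decide_eq_false (not_lt.2 hx), cond_false] at h0 ⊢
      have h1 := (bmin_of_exists (bex_iff.1 h0)).2
      set w' := bmin (S.bd k l i x y) (S.pr k l i x y)
      unfold pr at h1
      rw [Bool.and_eq_true, ball_iff] at h1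
      have h2 := (hm₀ (max x y) (hx.trans (le_max_left _ _))).2 (Nat.testBit w')
        (fun z hz => by simpa using h1.1 z hz) x (le_max_left _ _) y (le_max_right _ _)
        (by simpa using h1.2)
      rw [h2, Nat.add_sub_cancel]

end Sys

/-- The system of a relative Blum measure. -/
theorem exists_sys (M : RelBlum) : ∃ S : Sys, S.Q = Q M := by
  obtain ⟨u, hu, hloc, hQ⟩ := exists_modulus M
  exact ⟨⟨Q M, u, hu, hQ, hloc, fun f i x y z hyz h => Q_mono hyz h⟩, rfl⟩

/-- Recursive functions have indices that do not use the oracle. -/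
theorem exists_index (M : RelBlum) {f : ℕ → ℕ} (hf : Computable f) :
    ∃ k, ∀ X x, M.φ k X x = Part.some (f x) := by
  have h1 : Nat.Partrec (fun n => Part.some (f n.unpair.2)) :=
    Partrec.nat_iff.1 (hf.comp (comp_unpair2 Computable.id)).partrec
  obtain ⟨h, -, hh⟩ := M.acceptable _ (OPartrec.of_partrec h1)
  refine ⟨h 0, fun X x => ?_⟩
  rw [hh]
  simp

theorem Q_of_eq {M : RelBlum} {f : ℕ → Bool} {i x y v : ℕ} (hv : M.φ i f x = Part.some v)
    (h : Q M f i x y ≠ 0) : Q M f i x y = v + 1 := by
  obtain ⟨v', hv', h1, -⟩ := Q_ne_zero h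
  rw [hv, Part.mem_some_iff] at hv'
  rw [h1, hv']

theorem exists_Q {M : RelBlum} {f : ℕ → Bool} {i x v : ℕ} (hv : M.φ i f x = Part.some v) :
    ∃ y, Q M f i x y ≠ 0 := by
  have h1 : (M.Φ i f x).Dom := (M.dom_iff i f x).2 (by rw [hv]; trivial)
  refine ⟨(M.Φ i f x).get h1, ?_⟩
  rw [Q_pos ⟨_, le_rfl, Part.get_mem h1⟩ (by rw [hv]; exact Part.mem_some v)]
  exact Nat.succ_ne_zero v

/-- The cost of the programs without oracle. -/
theorem exists_cost (M : RelBlum) {S : Sys} (hS : S.Q = Q M) {h : ℕ → ℕ} (hh : Computable h)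
    (hF' : ∀ p X x, M.φ (h p) X x = S.F p x) : ∃ cost : ℕ × ℕ × ℕ → ℕ, Computable cost ∧
      (∀ p x y y', y ≤ y' → cost (p, x, y) ≤ cost (p, x, y')) ∧
      ∀ p x y, S.P p x y = true → Q M noOracle (h p) x (cost (p, x, y)) ≠ 0 := by
  have hq0 : ∀ k x m, S.q0 k x m = Q M noOracle k x m := fun k x m => by
    unfold Sys.q0
    rw [hS, testBit_zero_eq]
  have hex : ∀ q : ℕ × ℕ × ℕ, ∃ n, (!(bex (q.2.2 + 1) (S.P q.1 q.2.1)) ||
      !(decide (S.q0 (h q.1) q.2.1 n = 0))) = true := by
    rintro ⟨p, x, y⟩
    by_cases hb : bex (y + 1) (S.P p x) = true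
    · obtain ⟨y', -, hy'⟩ := bex_iff.1 hb
      have hex' : ∃ y, S.P p x y = true := ⟨y', hy'⟩
      have h1 : M.φ (h p) noOracle x = Part.some (S.V p x (Nat.find hex')) := by
        rw [hF']
        refine Sys.mem_F (Nat.find_spec hex') (fun y' hy' => ?_) rfl
        have := Nat.find_min hex' hy'
        rwa [Bool.not_eq_true] at this
      obtain ⟨n, hn⟩ := exists_Q h1
      refine ⟨n, ?_⟩
      rw [Bool.or_eq_true]
      right
      rw [hq0]
      simpa using hn
    · refine ⟨0, ?_⟩
      rw [Bool.not_eq_true] at hb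
      simp only [hb, Bool.not_false, Bool.true_or]
  have hcp : Computable₂ (fun (q : ℕ × ℕ × ℕ) (n : ℕ) =>
      (!(bex (q.2.2 + 1) (S.P q.1 q.2.1)) || !(decide (S.q0 (h q.1) q.2.1 n = 0)))) := by
    have hp : Computable (fun q : (ℕ × ℕ × ℕ) × ℕ => q.1.1) :=
      Computable.fst.comp Computable.fst
    have hx : Computable (fun q : (ℕ × ℕ × ℕ) × ℕ => q.1.2.1) :=
      Computable.fst.comp (Computable.snd.comp Computable.fst)
    have hy : Computable (fun q : (ℕ × ℕ × ℕ) × ℕ => q.1.2.2) :=
      Computable.snd.comp (Computable.snd.comp Computable.fst)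
    have h1 : Computable₂ (fun (q : (ℕ × ℕ × ℕ) × ℕ) (y : ℕ) => S.P q.1.1 q.1.2.1 y) :=
      S.comp_P (hp.comp Computable.fst) (hx.comp Computable.fst) Computable.snd
    exact comp_or (comp_not (comp_bex (comp_add hy (Computable.const 1)) h1))
      (comp_not (comp_eq (S.comp_q0 (hh.comp hp) hx Computable.snd) (Computable.const 0)))
  refine ⟨fun q => Nat.find (hex q), comp_find hcp hex, ?_, ?_⟩
  · intro p x y y' hyy
    by_cases hb : bex (y + 1) (S.P p x) = true
    · have hb' : bex (y' + 1) (S.P p x) = true := by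
        obtain ⟨z, hz, h1⟩ := bex_iff.1 hb
        exact bex_iff.2 ⟨z, by omega, h1⟩
      refine Nat.find_min' _ ?_
      have h1 := Nat.find_spec (hex (p, x, y'))
      simp only [hb, hb', Bool.not_true, Bool.false_or] at h1 ⊢
      exact h1
    · have h0 : Nat.find (hex (p, x, y)) = 0 := by
        rw [Nat.find_eq_zero]
        rw [Bool.not_eq_true] at hb
        simp only [hb, Bool.not_false, Bool.true_or]
      dsimp only
      rw [h0]
      exact Nat.zero_le _
  · intro p x y hP
    have h4 : bex (y + 1) (S.P p x) = true := bex_iff.2 ⟨y, Nat.lt_succ_self y, hP⟩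
    have h5 := Nat.find_spec (hex (p, x, y))
    dsimp only
    generalize Nat.find (hex (p, x, y)) = n at h5 ⊢
    dsimp only at h5
    rw [h4, Bool.not_true, Bool.false_or, Bool.not_eq_true', decide_eq_false_iff_not, hq0] at h5
    exact h5

/-- The main theorem: there is a recursive `g` such that for all recursive `A`, `s` there is
a recursive `B`, of complexity larger than `s` almost everywhere, such that every program for `A`
with oracle `B` can be replaced by a program without oracle which is only `g` slower. -/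
theorem main (M : RelBlum) : ∃ g : ℕ → ℕ → ℕ, Computable₂ g ∧
    (∀ x y y', y ≤ y' → g x y ≤ g x y') ∧
    ∀ A : ℕ → Bool, Computable A → ∀ s : ℕ → ℕ, Computable s →
      ∃ B : ℕ → Bool, Computable B ∧ M.CompAE noOracle B s ∧
        ∀ i, M.Computes i B A → ∃ j, M.Computes j noOracle A ∧
          ∃ x₀, ∀ x ≥ x₀, ∀ y ∈ M.Φ i B x, ∃ y' ∈ M.Φ j noOracle x, y' ≤ g x y := by
  obtain ⟨S, hS⟩ := exists_sys M
  obtain ⟨h, hh, hF⟩ := M.acceptable _ (OPartrec.of_partrec S.partrec_F)
  have hF' : ∀ p X x, M.φ (h p) X x = S.F p x := by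
    intro p X x
    rw [hF]
    simp
  obtain ⟨cost, hcost, hmono, hcost2⟩ := exists_cost M hS hh hF'
  refine ⟨fun x y => bsum (x + 1) (fun p => cost (p, x, y)), ?_, ?_, ?_⟩
  · have h1 : Computable₂ (fun (q : ℕ × ℕ) (p : ℕ) => cost (p, q.1, q.2)) :=
      hcost.comp (Computable.snd.pair ((Computable.fst.comp Computable.fst).pair
        (Computable.snd.comp Computable.fst)))
    exact comp_bsum (comp_add Computable.fst (Computable.const 1)) h1
  · intro x y y' hyy
    exact bsum_mono fun p _ => hmono p x y y' hyy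
  · intro A hA s hs
    obtain ⟨k, hk⟩ := exists_index M (comp_toNat hA)
    obtain ⟨l, hl⟩ := exists_index M hs
    have W : S.World k l A s := by
      refine ⟨fun x => ?_, fun x m hm => ?_, fun x => ?_, fun x m hm => ?_⟩
      · unfold Sys.q0
        rw [hS]
        exact exists_Q (hk _ x)
      · unfold Sys.q0 at hm ⊢
        rw [hS] at hm ⊢
        exact Q_of_eq (hk _ x) hm
      · unfold Sys.q0
        rw [hS]
        exact exists_Q (hl _ x)
      · unfold Sys.q0 at hm ⊢
        rw [hS] at hm ⊢
        exact Q_of_eq (hl _ x) hm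
    obtain ⟨B, hB, hK, hC⟩ := Sys.outcome W
    refine ⟨B, hB, ?_, ?_⟩
    · intro e he
      obtain ⟨z₀, hz₀⟩ := hC e fun z y hzy => by
        unfold Sys.q0 at hzy ⊢
        rw [hS, testBit_zero_eq] at hzy ⊢
        exact Q_of_eq (he z) hzy
      refine ⟨z₀, fun z hz y hy => ?_⟩
      by_contra hlt
      have h1 := hz₀ z hz
      unfold Sys.q0 at h1
      rw [hS, testBit_zero_eq, Q_pos ⟨y, not_lt.1 hlt, hy⟩
        (by rw [he z]; exact Part.mem_some _)] at h1
      exact Nat.succ_ne_zero _ h1
    · intro i hi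
      obtain ⟨m₀, hm₀⟩ := hK i fun x y hxy => by
        rw [hS] at hxy ⊢
        exact Q_of_eq (hi x) hxy
      obtain ⟨h1, h2⟩ := Sys.F_correct W hm₀ fun x => by
        rw [hS]
        exact exists_Q (hi x)
      generalize Nat.pair i (Nat.pair k (Nat.pair l m₀)) = p at h1 h2
      refine ⟨h p, fun x => by rw [hF', h1], max p m₀, fun x hx y hy => ?_⟩
      have h3 : S.P p x y = true := by
        refine h2 x ((le_max_right _ _).trans hx) y ?_
        rw [hS, Q_pos ⟨y, le_rfl, hy⟩ (by rw [hi x]; exact Part.mem_some _)]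
        exact Nat.succ_ne_zero _
      obtain ⟨v, -, -, y', hy', h6⟩ := Q_ne_zero (hcost2 p x y h3)
      refine ⟨y', h6, hy'.trans ?_⟩
      exact le_bsum (p := fun p => cost (p, x, y))
        (Nat.lt_succ_of_le ((le_max_left _ _).trans hx))

end Pool.Agent.Helper672.Blum
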