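import Pool.Agent.Helper672.Blum.Dynamics

/-!
# The limit of the construction
-/

namespace Pool.Agent.Helper672.Blum

namespace Sys

variable {S : Sys} {k l : ℕ} {A : ℕ → Bool} {s : ℕ → ℕ}

theorem exists_a_gt (W : S.World k l A s) (N : ℕ) : ∃ m, N < S.a k l m := by
  obtain ⟨m, -, -, h⟩ := exists_start W 0 (N + 1)
  exact ⟨m, h⟩

/-- Going down from stage `c` to the processing of a smaller index in the same block. -/
theorem reach (W : S.World k l A s) (c : ℕ) (d q : ℕ) (hq : q + d = S.r k l c) :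
    ∃ m ≥ c, S.r k l m = q ∧ Ev S k l m ∧ S.a k l m = S.a k l c ∧ (0 < d → c < S.T k l m) ∧
      ((∀ m' ≥ c, ∀ n' < S.r k l c, ¬ Acts S k l m' n') →
        S.w k l m = S.w k l c ∧ S.b k l m = S.b k l c) := by
  induction d generalizing q with
  | zero =>
    obtain ⟨m, hm, hst, hev⟩ := exists_ev W c
    refine ⟨m, hm, ?_, hev, ?_, fun h => absurd h (lt_irrefl 0), fun _ => ⟨?_, ?_⟩⟩
    · rw [Nat.add_zero] at hq
      rw [hq]; unfold r; rw [hst]
    · unfold a; rw [hst]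
    · unfold w; rw [hst]
    · unfold b; rw [hst]
  | succ d ih =>
    obtain ⟨m1, hm1, hr1, hev1, ha1, -, hna1⟩ := ih (q + 1) (by omega)
    obtain ⟨m2, hm2, hst, hev2⟩ := exists_ev W (m1 + 1)
    obtain ⟨h1, h2, h3, h4, h5⟩ := step_proc hev1 hr1
    refine ⟨m2, by omega, ?_, hev2, ?_, fun _ => ?_, fun hna => ?_⟩
    · rw [← h4]; unfold r; rw [hst]
    · rw [← ha1, ← h2]; unfold a; rw [hst]
    · have : S.T k l m2 = S.T k l (m1 + 1) := by unfold T; rw [hst]
      rw [this, h5]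
      omega
    · obtain ⟨h6, h7⟩ := hna1 hna
      have h8 : ¬ Acts S k l m1 q := hna m1 hm1 q (by omega)
      have h9 := act_of_not (S := S) (k := k) (l := l) (fun h10 => h8 ⟨hr1, hev1, h10⟩)
      rw [h9] at h1 h3
      constructor
      · refine Eq.trans ?_ (h1.trans h6)
        unfold w; rw [hst]
      · refine Eq.trans ?_ (h3.trans h7)
        unfold b; rw [hst]

section

variable {B : ℕ → Bool} (hB : ∀ m, ∀ z < S.a k l m, Nat.testBit (S.w k l m) z = B z)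
include hB

/-- Once the requirements `≤ n` do not act any more, a block is decided after the processing
of the requirement `n + 1`. -/
theorem decided (W : S.World k l A s) {n m₀ : ℕ}
    (hno : ∀ m ≥ m₀, ∀ n' ≤ n, ¬ Acts S k l m n') {m : ℕ} (hm : m₀ ≤ m)
    (hr : S.r k l m ≤ n + 1) : ∀ z < S.b k l m, Nat.testBit (S.w k l m) z = B z := by
  obtain ⟨m1, hm1, hr1, hev1, -, -, hna1⟩ := reach W m (S.r k l m) 0 (by omega)
  obtain ⟨h1, h2⟩ := hna1 fun m' hm' n' hn' => hno m' (hm.trans hm') n' (by omega)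
  obtain ⟨h3, h4, -⟩ := step_fin hev1 hr1
  intro z hz
  rw [← h1, ← h3]
  refine hB _ z ?_
  rw [h4, h2]
  exact hz

omit hB in
/-- The next block start. -/
theorem next_start (W : S.World k l A s) {n m₀ : ℕ}
    (hno : ∀ m ≥ m₀, ∀ n' ≤ n, ¬ Acts S k l m n') {m : ℕ} (hm : m₀ ≤ m)
    (hr : S.r k l m ≤ n + 1) : ∃ m' > m, S.r k l m' = S.a k l m' ∧ S.a k l m' = S.b k l m ∧
      S.w k l m' = S.w k l m := by
  obtain ⟨m1, hm1, hr1, hev1, -, -, hna1⟩ := reach W m (S.r k l m) 0 (by omega)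
  obtain ⟨h1, h2⟩ := hna1 fun m' hm' n' hn' => hno m' (hm.trans hm') n' (by omega)
  obtain ⟨h3, h4, -, h5, -⟩ := step_fin hev1 hr1
  exact ⟨m1 + 1, by omega, by rw [h4, h5], by rw [h4, h2], by rw [h3, h1]⟩

theorem not_ts_K (W : S.World k l A s) {i m₀ : ℕ}
    (hi : ∀ x y, S.Q B i x y ≠ 0 → S.Q B i x y = (A x).toNat + 1)
    (hno : ∀ m ≥ m₀, ∀ n' ≤ 2 * i + 1, ¬ Acts S k l m n') {m : ℕ} (hm : m₀ ≤ m)
    (hr : S.r k l m ≤ 2 * i + 2) :
    ¬ S.ts A s (2 * i + 1) (S.w k l m) (S.b k l m) (S.T k l m) := by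
  rintro (⟨h, -⟩ | ⟨-, t, ht, hU, x, hx, h1, h2⟩)
  · omega
  · have h3 : (2 * i + 1) / 2 = i := by omega
    rw [h3] at hU h1 h2
    have h4 := decided hB W hno hm hr
    have h5 : S.Q (Nat.testBit (S.w k l m)) i x t = S.Q B i x t :=
      S.loc _ _ _ _ _ fun z hz => h4 z (hz.trans_le ((S.u_le_U hx).trans hU))
    rw [h5] at h1 h2
    exact h2 (hi x t h1)

/-- Correctness before the requirement is processed in a block. -/
theorem good_a (W : S.World k l A s) {i m₀ : ℕ}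
    (hi : ∀ x y, S.Q B i x y ≠ 0 → S.Q B i x y = (A x).toNat + 1)
    (hno : ∀ m ≥ m₀, ∀ n' ≤ 2 * i + 1, ¬ Acts S k l m n') {c : ℕ} (hc : m₀ ≤ c)
    (hr : 2 * i + 3 ≤ S.r k l c) {f : ℕ → Bool}
    (hf : ∀ z < S.a k l c, Nat.testBit (S.w k l c) z = f z) {x y : ℕ} (hx : x ≤ c) (hy : y ≤ c)
    (h : S.Q f i x y ≠ 0) : S.Q f i x y = (A x).toNat + 1 := by
  by_contra hne
  obtain ⟨m, hm, hrm, hev, ha, hT, -⟩ := reach W c (S.r k l c - (2 * i + 2)) (2 * i + 2) (by omega)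
  have hT := hT (by omega)
  have hm0 : m₀ ≤ m := hc.trans hm
  have hnots := not_ts_K hB W hi hno hm0 (by omega)
  have hsat : S.sat k l (2 * i + 1) (S.w k l m) (S.b k l m) (S.T k l m) (m + 1) = false := by
    rw [← Bool.not_eq_true, sat_iff W hev (2 * i + 1) _ _ (fun _ => le_rfl)]
    exact hnots
  refine hno m hm0 (2 * i + 1) le_rfl ⟨hrm, hev, hsat, ?_⟩
  obtain ⟨w', hw', hw'f⟩ := exists_bits f (S.bb (2 * i + 1) (S.b k l m) (S.T k l m))
  refine bex_iff.2 ⟨w', hw', cand_iff.2 ⟨fun z hz => ?_, ?_⟩⟩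
  · have hzc : z < S.a k l c := by rw [← ha]; exact hz
    rw [← (coh (S := S) (k := k) (l := l) hm).2 z hzc, hf z hzc]
    refine (hw'f z (hz.trans_le ?_)).symm
    exact (a_lt_b (S := S) (k := k) (l := l) m).le.trans (bb_ge _ _ _)
  · rw [sat_iff W hev (2 * i + 1) _ _ (fun hn => absurd hn (by omega))]
    have h3 : (2 * i + 1) / 2 = i := by omega
    have h4 := bb_odd (S := S) (n := 2 * i + 1) (S.b k l m) (S.T k l m) (by omega)
    rw [h3] at h4
    have h5 : S.Q (Nat.testBit w') i x (S.T k l m) = S.Q f i x (S.T k l m) :=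
      S.loc _ _ _ _ _ fun z hz => hw'f z (hz.trans_le ((S.u_le_U (by omega)).trans h4))
    have h6 : S.Q f i x (S.T k l m) = S.Q f i x y := S.mono _ _ _ _ _ (by omega) h
    refine Or.inr ⟨by omega, S.T k l m, le_rfl, ?_, x, by omega, ?_, ?_⟩
    · rw [h3]; exact h4
    · rw [h3, h5, h6]; exact h
    · rw [h3, h5, h6]; exact hne

/-- Length of the decided part, from the point of view of the requirement `2 i + 1`. -/
def len (S : Sys) (k l i c : ℕ) : ℕ :=
  bif decide (2 * i + 3 ≤ S.r k l c) then S.a k l c else S.b k l c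

omit hB in
theorem len_a {i c : ℕ} (h : 2 * i + 3 ≤ S.r k l c) : len S k l i c = S.a k l c := by
  unfold len
  simp [h]

omit hB in
theorem len_b {i c : ℕ} (h : ¬ 2 * i + 3 ≤ S.r k l c) : len S k l i c = S.b k l c := by
  unfold len
  simp [h]

theorem good (W : S.World k l A s) {i m₀ : ℕ}
    (hi : ∀ x y, S.Q B i x y ≠ 0 → S.Q B i x y = (A x).toNat + 1)
    (hno : ∀ m ≥ m₀, ∀ n' ≤ 2 * i + 1, ¬ Acts S k l m n') (ha : 2 * i + 3 ≤ S.a k l m₀)
    {c : ℕ} (hc : m₀ ≤ c) {f : ℕ → Bool}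
    (hf : ∀ z < len S k l i c, Nat.testBit (S.w k l c) z = f z) {x y : ℕ} (hx : x ≤ c)
    (hy : y ≤ c) (h : S.Q f i x y ≠ 0) : S.Q f i x y = (A x).toNat + 1 := by
  by_cases hr : 2 * i + 3 ≤ S.r k l c
  · rw [len_a hr] at hf
    exact good_a hB W hi hno hc hr hf hx hy h
  · rw [len_b hr] at hf
    obtain ⟨m', hm', h1, h2, h3⟩ := next_start W hno hc (by omega)
    refine good_a hB W hi hno (c := m') (by omega) ?_ ?_ (by omega) (by omega) h
    · rw [h1]
      exact ha.trans (coh (S := S) (k := k) (l := l) (by omega)).1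
    · rw [h2, h3]
      exact hf

theorem len_agrees (W : S.World k l A s) {i m₀ : ℕ}
    (hno : ∀ m ≥ m₀, ∀ n' ≤ 2 * i + 1, ¬ Acts S k l m n') {c : ℕ} (hc : m₀ ≤ c) :
    ∀ z < len S k l i c, Nat.testBit (S.w k l c) z = B z := by
  by_cases hr : 2 * i + 3 ≤ S.r k l c
  · rw [len_a hr]
    exact hB c
  · rw [len_b hr]
    exact decided hB W hno hc (by omega)

omit hB in
/-- Every late number is decided in a block in which the requirement is processed. -/
theorem cover (W : S.World k l A s) {n m₀ z : ℕ}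
    (hno : ∀ m ≥ m₀, ∀ n' ≤ n, ¬ Acts S k l m n') (d : ℕ) :
    ∀ c₀ ≥ m₀, S.r k l c₀ = S.a k l c₀ → n + 2 ≤ S.a k l c₀ → S.a k l c₀ ≤ z →
      z ≤ d + S.a k l c₀ →
      ∃ c ≥ m₀, S.r k l c = n + 1 ∧ Ev S k l c ∧ S.a k l c ≤ z ∧ z < S.b k l c := by
  induction d with
  | zero =>
    intro c₀ hc₀ hr ha haz hz
    obtain ⟨c, hc, hrc, hev, hac, -, -⟩ := reach W c₀ (S.r k l c₀ - (n + 1)) (n + 1) (by omega)
    refine ⟨c, by omega, hrc, hev, by omega, ?_⟩
    have := a_lt_b (S := S) (k := k) (l := l) c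
    omega
  | succ d ih =>
    intro c₀ hc₀ hr ha haz hz
    obtain ⟨c, hc, hrc, hev, hac, -, -⟩ := reach W c₀ (S.r k l c₀ - (n + 1)) (n + 1) (by omega)
    by_cases hzb : z < S.b k l c
    · exact ⟨c, by omega, hrc, hev, by omega, hzb⟩
    · obtain ⟨m', hm', h1, h2, -⟩ := next_start W hno (m := c) (by omega) (by omega)
      have := a_lt_b (S := S) (k := k) (l := l) c
      exact ih m' (by omega) h1 (by omega) (by omega) (by omega)

/-- `B` is hard. -/
theorem hard (W : S.World k l A s) {e m₀ : ℕ}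
    (he : ∀ z y, S.q0 e z y ≠ 0 → S.q0 e z y = (B z).toNat + 1)
    (hno : ∀ m ≥ m₀, ∀ n' ≤ 2 * e, ¬ Acts S k l m n') (hr : S.r k l m₀ = S.a k l m₀)
    (ha : 2 * e + 2 ≤ S.a k l m₀) {z : ℕ} (hz : S.a k l m₀ ≤ z) : S.q0 e z (s z) = 0 := by
  by_contra hne
  obtain ⟨c, hc, hrc, hev, hac, hbc⟩ := cover W hno z m₀ le_rfl hr ha hz (Nat.le_add_right _ _)
  have hdec := decided hB W hno hc (by omega)
  have h3 : (2 * e) / 2 = e := by omega
  have hnots : ¬ S.ts A s (2 * e) (S.w k l c) (S.b k l c) (S.T k l c) := by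
    rintro (⟨-, z', hz', h1, h2⟩ | ⟨h, -⟩)
    · rw [h3] at h1 h2
      rw [hdec z' hz'] at h2
      exact h2 (he z' (s z') h1)
    · omega
  have hsat : S.sat k l (2 * e) (S.w k l c) (S.b k l c) (S.T k l c) (c + 1) = false := by
    rw [← Bool.not_eq_true, sat_iff W hev (2 * e) _ _ (fun _ => le_rfl)]
    exact hnots
  refine hno c hc (2 * e) le_rfl ⟨hrc, hev, hsat, ?_⟩
  obtain ⟨w', hw', hw'f⟩ := exists_bits
    (fun z' => if z' = z then decide (S.q0 e z (s z) = 1) else Nat.testBit (S.w k l c) z')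
    (S.bb (2 * e) (S.b k l c) (S.T k l c))
  have hbb := bb_even (S := S) (n := 2 * e) (S.b k l c) (S.T k l c) (by omega)
  refine bex_iff.2 ⟨w', hw', cand_iff.2 ⟨fun z' hz' => ?_, ?_⟩⟩
  · rw [hw'f z' (by rw [hbb]; omega), if_neg (by omega)]
  · rw [sat_iff W hev (2 * e) _ _ (fun hn => by rw [hbb]), hbb]
    refine Or.inl ⟨by omega, z, hbc, ?_, ?_⟩
    · rw [h3]; exact hne
    · rw [h3, hw'f z (by rw [hbb]; exact hbc), if_pos rfl]
      by_cases h4 : S.q0 e z (s z) = 1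
      · simp [h4]
      · simp [h4]

end

/-- The outcome of the construction. -/
theorem outcome (W : S.World k l A s) : ∃ B : ℕ → Bool, Computable B ∧
    (∀ i, (∀ x y, S.Q B i x y ≠ 0 → S.Q B i x y = (A x).toNat + 1) →
      ∃ m₀, ∀ c ≥ m₀, (∀ z < len S k l i c, Nat.testBit (S.w k l c) z = B z) ∧
        ∀ f : ℕ → Bool, (∀ z < len S k l i c, Nat.testBit (S.w k l c) z = f z) →
          ∀ x ≤ c, ∀ y ≤ c, S.Q f i x y ≠ 0 → S.Q f i x y = (A x).toNat + 1) ∧
    (∀ e, (∀ z y, S.q0 e z y ≠ 0 → S.q0 e z y = (B z).toNat + 1) →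
      ∃ z₀, ∀ z ≥ z₀, S.q0 e z (s z) = 0) := by
  have hex : ∀ z, ∃ m, decide (z < S.a k l m) = true := fun z => by
    obtain ⟨m, hm⟩ := exists_a_gt W z
    exact ⟨m, decide_eq_true hm⟩
  have hst : Computable (fun m : ℕ => S.st k l m) :=
    S.comp_st (Computable.const k) (Computable.const l) Computable.id
  have ha : Computable (fun m : ℕ => S.a k l m) := Computable.fst.comp (Computable.snd.comp hst)
  have hp : Computable₂ (fun (z m : ℕ) => decide (z < S.a k l m)) :=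
    comp_lt Computable.fst (ha.comp Computable.snd)
  have hfind := comp_find hp hex
  have hBc : Computable (fun z => Nat.testBit (S.w k l (Nat.find (hex z))) z) :=
    comp_testBit ((Computable.fst.comp hst).comp hfind) Computable.id
  have hB : ∀ m, ∀ z < S.a k l m, Nat.testBit (S.w k l m) z =
      Nat.testBit (S.w k l (Nat.find (hex z))) z := by
    intro m z hz
    have h1 : Nat.find (hex z) ≤ m := Nat.find_min' (hex z) (decide_eq_true hz)
    have h2 : z < S.a k l (Nat.find (hex z)) := of_decide_eq_true (Nat.find_spec (hex z))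
    exact ((coh (S := S) (k := k) (l := l) h1).2 z h2).symm
  have hstart : ∀ n, ∃ m₀, (∀ m ≥ m₀, ∀ n' ≤ n, ¬ Acts S k l m n') ∧
      S.r k l m₀ = S.a k l m₀ ∧ n + 2 ≤ S.a k l m₀ := by
    intro n
    obtain ⟨m₁, hm₁⟩ := finite_injury W n
    obtain ⟨m₀, hm₀, h1, h2⟩ := exists_start W m₁ (n + 2)
    exact ⟨m₀, fun m hm => hm₁ m (hm₀.trans hm), h1, h2⟩
  refine ⟨_, hBc, fun i hi => ?_, fun e he => ?_⟩
  · obtain ⟨m₀, hno, -, h2⟩ := hstart (2 * i + 1)
    refine ⟨m₀, fun c hc => ⟨len_agrees hB W hno hc, fun f hf x hx y hy h => ?_⟩⟩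
    exact good hB W hi hno h2 hc hf hx hy h
  · obtain ⟨m₀, hno, h1, h2⟩ := hstart (2 * e)
    exact ⟨S.a k l m₀, fun z hz => hard hB W he hno h1 h2 hz⟩

end Sys

end Pool.Agent.Helper672.Blum
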