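import Pool.Agent.Helper672.Blum.Clock

/-!
# The stage construction and its computability
-/

namespace Pool.Agent.Helper672.Blum

/-- Clocked values with a computable modulus. -/
structure Sys where
  Q : (ℕ → Bool) → ℕ → ℕ → ℕ → ℕ
  u : ℕ → ℕ → ℕ → ℕ
  compu : Computable (fun p : ℕ × ℕ × ℕ => u p.1 p.2.1 p.2.2)
  compQ : Computable (fun p : ℕ × ℕ × ℕ × ℕ => Q (Nat.testBit p.1) p.2.1 p.2.2.1 p.2.2.2)
  loc : ∀ f g i x y, (∀ z < u i x y, f z = g z) → Q f i x y = Q g i x y
  mono : ∀ f i x y z, y ≤ z → Q f i x y ≠ 0 → Q f i x z = Q f i x y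

namespace Sys

variable (S : Sys)

/-- Values without oracle. -/
def q0 (k x m : ℕ) : ℕ := S.Q (Nat.testBit 0) k x m

/-- Common modulus. -/
def U (i T : ℕ) : ℕ := bsum (T + 1) (fun x => S.u i x T)

/-- The value of `φ_i` with oracle `w` at `x`, clocked by `t`, is defined and differs from the
one of `φ_k`. -/
def bad (k w i x t m : ℕ) : Bool :=
  !(decide (S.Q (Nat.testBit w) i x t = 0)) && !(decide (S.Q (Nat.testBit w) i x t = S.q0 k x m))

def satK (k i w b T m : ℕ) : Bool :=
  bex (T + 1) (fun t => decide (S.U i t ≤ b) && bex (t + 1) (fun x => S.bad k w i x t m))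

/-- Clocked value of `φ_e(z)` with the clock given by `φ_l(z)`. -/
def hv (l e z m : ℕ) : ℕ := S.q0 e z (S.q0 l z m - 1)

def satC (l e w b m : ℕ) : Bool :=
  bex b (fun z => !(decide (S.hv l e z m = 0)) &&
    !(decide (S.hv l e z m = (Nat.testBit w z).toNat + 1)))

def sat (k l n w b T m : ℕ) : Bool :=
  bif decide (n % 2 = 0) then S.satC l (n / 2) w b m else S.satK k (n / 2) w b T m

def bb (n b T : ℕ) : ℕ := bif decide (n % 2 = 0) then b else max b (S.U (n / 2) T)

def cand (k l n w a b T m w' : ℕ) : Bool :=
  ball a (fun z => Nat.testBit w z == Nat.testBit w' z) && S.sat k l n w' (S.bb n b T) T m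

def act (k l n w a b T m : ℕ) : ℕ × ℕ :=
  bif S.sat k l n w b T m then (w, b)
  else bif bex (2 ^ (S.bb n b T)) (S.cand k l n w a b T m) then
    (bmin (2 ^ (S.bb n b T)) (S.cand k l n w a b T m), S.bb n b T)
  else (w, b)

def waitc (k l b T m : ℕ) : Bool :=
  ball (T + 1) (fun x => !(decide (S.q0 k x m = 0))) && ball b (fun z => !(decide (S.q0 l z m = 0)))

/-- States `(w, a, b, r, T)`. -/
abbrev St : Type := ℕ × ℕ × ℕ × ℕ × ℕ

def upd (k l m : ℕ) (s : St) : St :=
  bif S.waitc k l s.2.2.1 s.2.2.2.2 m then
    Nat.casesOn (motive := fun _ => St) s.2.2.2.1 (s.1, s.2.2.1, s.2.2.1 + 1, s.2.2.1, m)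
      (fun n => ((S.act k l n s.1 s.2.1 s.2.2.1 s.2.2.2.2 m).1, s.2.1,
        (S.act k l n s.1 s.2.1 s.2.2.1 s.2.2.2.2 m).2, n, m))
  else s

def st (k l m : ℕ) : St :=
  Nat.rec (motive := fun _ => St) (0, 0, 1, 0, 0) (fun m s => S.upd k l (m + 1) s) m

/-! ### Computability -/

section Comp

variable {α : Type*} [Primcodable α]

theorem comp_Q {w i x y : α → ℕ} (hw : Computable w) (hi : Computable i) (hx : Computable x)
    (hy : Computable y) : Computable fun a => S.Q (Nat.testBit (w a)) (i a) (x a) (y a) :=
  S.compQ.comp (hw.pair (hi.pair (hx.pair hy)))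

theorem comp_q0 {i x y : α → ℕ} (hi : Computable i) (hx : Computable x)
    (hy : Computable y) : Computable fun a => S.q0 (i a) (x a) (y a) :=
  S.comp_Q (Computable.const 0) hi hx hy

theorem comp_u {i x y : α → ℕ} (hi : Computable i) (hx : Computable x)
    (hy : Computable y) : Computable fun a => S.u (i a) (x a) (y a) :=
  S.compu.comp (hi.pair (hx.pair hy))

theorem comp_U {i T : α → ℕ} (hi : Computable i) (hT : Computable T) :
    Computable fun a => S.U (i a) (T a) := by
  have h1 : Computable₂ (fun (a : α) (x : ℕ) => S.u (i a) x (T a)) :=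
    S.comp_u (hi.comp Computable.fst) Computable.snd (hT.comp Computable.fst)
  exact comp_bsum (comp_add hT (Computable.const 1)) h1

theorem comp_bad {k w i x t m : α → ℕ} (hk : Computable k) (hw : Computable w)
    (hi : Computable i) (hx : Computable x) (ht : Computable t) (hm : Computable m) :
    Computable fun a => S.bad (k a) (w a) (i a) (x a) (t a) (m a) :=
  comp_and (comp_not (comp_eq (S.comp_Q hw hi hx ht) (Computable.const 0)))
    (comp_not (comp_eq (S.comp_Q hw hi hx ht) (S.comp_q0 hk hx hm)))

theorem comp_satK {k i w b T m : α → ℕ} (hk : Computable k) (hi : Computable i)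
    (hw : Computable w) (hb : Computable b) (hT : Computable T) (hm : Computable m) :
    Computable fun a => S.satK (k a) (i a) (w a) (b a) (T a) (m a) := by
  have h1 : Computable₂ (fun (q : α × ℕ) (x : ℕ) => S.bad (k q.1) (w q.1) (i q.1) x q.2 (m q.1)) :=
    S.comp_bad (hk.comp (Computable.fst.comp Computable.fst))
      (hw.comp (Computable.fst.comp Computable.fst))
      (hi.comp (Computable.fst.comp Computable.fst)) Computable.snd
      (Computable.snd.comp Computable.fst) (hm.comp (Computable.fst.comp Computable.fst))
  have h2 : Computable₂ (fun (a : α) (t : ℕ) => decide (S.U (i a) t ≤ b a) &&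
      bex (t + 1) (fun x => S.bad (k a) (w a) (i a) x t (m a))) :=
    comp_and (comp_le (S.comp_U (hi.comp Computable.fst) Computable.snd) (hb.comp Computable.fst))
      (comp_bex (comp_add Computable.snd (Computable.const 1)) h1)
  exact comp_bex (comp_add hT (Computable.const 1)) h2

theorem comp_hv {l e z m : α → ℕ} (hl : Computable l) (he : Computable e) (hz : Computable z)
    (hm : Computable m) : Computable fun a => S.hv (l a) (e a) (z a) (m a) :=
  S.comp_q0 he hz (comp_sub (S.comp_q0 hl hz hm) (Computable.const 1))

theorem comp_satC {l e w b m : α → ℕ} (hl : Computable l) (he : Computable e)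
    (hw : Computable w) (hb : Computable b) (hm : Computable m) :
    Computable fun a => S.satC (l a) (e a) (w a) (b a) (m a) := by
  have h0 : Computable (fun q : α × ℕ => S.hv (l q.1) (e q.1) q.2 (m q.1)) :=
    S.comp_hv (hl.comp Computable.fst) (he.comp Computable.fst) Computable.snd
      (hm.comp Computable.fst)
  have h1 : Computable₂ (fun (a : α) (z : ℕ) => !(decide (S.hv (l a) (e a) z (m a) = 0)) &&
      !(decide (S.hv (l a) (e a) z (m a) = (Nat.testBit (w a) z).toNat + 1))) :=
    comp_and (comp_not (comp_eq h0 (Computable.const 0)))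
      (comp_not (comp_eq h0 (comp_add (comp_toNat (comp_testBit (hw.comp Computable.fst)
        Computable.snd)) (Computable.const 1))))
  exact comp_bex hb h1

theorem comp_sat {k l n w b T m : α → ℕ} (hk : Computable k) (hl : Computable l)
    (hn : Computable n) (hw : Computable w) (hb : Computable b) (hT : Computable T)
    (hm : Computable m) :
    Computable fun a => S.sat (k a) (l a) (n a) (w a) (b a) (T a) (m a) := by
  have hn2 : Computable (fun a => n a / 2) := comp_div hn (Computable.const 2)
  exact Computable.cond (comp_eq (comp_mod hn (Computable.const 2)) (Computable.const 0))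
    (S.comp_satC hl hn2 hw hb hm) (S.comp_satK hk hn2 hw hb hT hm)

theorem comp_bb {n b T : α → ℕ} (hn : Computable n) (hb : Computable b) (hT : Computable T) :
    Computable fun a => S.bb (n a) (b a) (T a) :=
  Computable.cond (comp_eq (comp_mod hn (Computable.const 2)) (Computable.const 0)) hb
    (comp_max hb (S.comp_U (comp_div hn (Computable.const 2)) hT))

theorem comp_cand {k l n w a' b T m w' : α → ℕ} (hk : Computable k) (hl : Computable l)
    (hn : Computable n) (hw : Computable w) (ha : Computable a') (hb : Computable b)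
    (hT : Computable T) (hm : Computable m) (hw' : Computable w') :
    Computable fun a => S.cand (k a) (l a) (n a) (w a) (a' a) (b a) (T a) (m a) (w' a) := by
  have h1 : Computable₂ (fun (a : α) (z : ℕ) => Nat.testBit (w a) z == Nat.testBit (w' a) z) :=
    comp_beq (comp_testBit (hw.comp Computable.fst) Computable.snd)
      (comp_testBit (hw'.comp Computable.fst) Computable.snd)
  exact comp_and (comp_ball ha h1) (S.comp_sat hk hl hn hw' (S.comp_bb hn hb hT) hT hm)

theorem comp_act {k l n w a' b T m : α → ℕ} (hk : Computable k) (hl : Computable l)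
    (hn : Computable n) (hw : Computable w) (ha : Computable a') (hb : Computable b)
    (hT : Computable T) (hm : Computable m) :
    Computable fun a => S.act (k a) (l a) (n a) (w a) (a' a) (b a) (T a) (m a) := by
  have h1 : Computable₂ (fun (a : α) (w' : ℕ) =>
      S.cand (k a) (l a) (n a) (w a) (a' a) (b a) (T a) (m a) w') :=
    S.comp_cand (hk.comp Computable.fst) (hl.comp Computable.fst) (hn.comp Computable.fst)
      (hw.comp Computable.fst) (ha.comp Computable.fst) (hb.comp Computable.fst)
      (hT.comp Computable.fst) (hm.comp Computable.fst) Computable.snd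
  have h2 : Computable (fun a => 2 ^ (S.bb (n a) (b a) (T a))) := comp_two_pow (S.comp_bb hn hb hT)
  exact Computable.cond (S.comp_sat hk hl hn hw hb hT hm) (hw.pair hb)
    (Computable.cond (comp_bex h2 h1) ((comp_bmin h2 h1).pair (S.comp_bb hn hb hT)) (hw.pair hb))

theorem comp_waitc {k l b T m : α → ℕ} (hk : Computable k) (hl : Computable l)
    (hb : Computable b) (hT : Computable T) (hm : Computable m) :
    Computable fun a => S.waitc (k a) (l a) (b a) (T a) (m a) := by
  have h1 : Computable₂ (fun (a : α) (x : ℕ) => !(decide (S.q0 (k a) x (m a) = 0))) :=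
    comp_not (comp_eq (S.comp_q0 (hk.comp Computable.fst) Computable.snd
      (hm.comp Computable.fst)) (Computable.const 0))
  have h2 : Computable₂ (fun (a : α) (x : ℕ) => !(decide (S.q0 (l a) x (m a) = 0))) :=
    comp_not (comp_eq (S.comp_q0 (hl.comp Computable.fst) Computable.snd
      (hm.comp Computable.fst)) (Computable.const 0))
  exact comp_and (comp_ball (comp_add hT (Computable.const 1)) h1) (comp_ball hb h2)

theorem comp_upd {k l m : α → ℕ} {s : α → St} (hk : Computable k) (hl : Computable l)
    (hm : Computable m) (hs : Computable s) :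
    Computable fun a => S.upd (k a) (l a) (m a) (s a) := by
  have hw : Computable (fun a => (s a).1) := Computable.fst.comp hs
  have ha : Computable (fun a => (s a).2.1) := Computable.fst.comp (Computable.snd.comp hs)
  have hb : Computable (fun a => (s a).2.2.1) :=
    Computable.fst.comp (Computable.snd.comp (Computable.snd.comp hs))
  have hr : Computable (fun a => (s a).2.2.2.1) :=
    Computable.fst.comp (Computable.snd.comp (Computable.snd.comp (Computable.snd.comp hs)))
  have hT : Computable (fun a => (s a).2.2.2.2) :=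
    Computable.snd.comp (Computable.snd.comp (Computable.snd.comp (Computable.snd.comp hs)))
  have h0 : Computable (fun a => (((s a).1, (s a).2.2.1, (s a).2.2.1 + 1, (s a).2.2.1, m a) : St)) :=
    hw.pair (hb.pair ((comp_add hb (Computable.const 1)).pair (hb.pair hm)))
  have hact : Computable (fun q : α × ℕ =>
      S.act (k q.1) (l q.1) q.2 (s q.1).1 (s q.1).2.1 (s q.1).2.2.1 (s q.1).2.2.2.2 (m q.1)) :=
    S.comp_act (hk.comp Computable.fst) (hl.comp Computable.fst) Computable.snd
      (hw.comp Computable.fst) (ha.comp Computable.fst) (hb.comp Computable.fst)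
      (hT.comp Computable.fst) (hm.comp Computable.fst)
  have h1 : Computable₂ (fun (a : α) (n : ℕ) =>
      (((S.act (k a) (l a) n (s a).1 (s a).2.1 (s a).2.2.1 (s a).2.2.2.2 (m a)).1, (s a).2.1,
        (S.act (k a) (l a) n (s a).1 (s a).2.1 (s a).2.2.1 (s a).2.2.2.2 (m a)).2, n, m a) : St)) :=
    (Computable.fst.comp hact).pair ((ha.comp Computable.fst).pair
      ((Computable.snd.comp hact).pair (Computable.snd.pair (hm.comp Computable.fst))))
  exact Computable.cond (S.comp_waitc hk hl hb hT hm) (Computable.nat_casesOn hr h0 h1) hs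

theorem comp_st {k l m : α → ℕ} (hk : Computable k) (hl : Computable l) (hm : Computable m) :
    Computable fun a => S.st (k a) (l a) (m a) := by
  have h1 : Computable₂ (fun (a : α) (q : ℕ × St) => S.upd (k a) (l a) (q.1 + 1) q.2) :=
    S.comp_upd (hk.comp Computable.fst) (hl.comp Computable.fst)
      (comp_add (Computable.fst.comp Computable.snd) (Computable.const 1))
      (Computable.snd.comp Computable.snd)
  exact Computable.nat_rec hm (Computable.const _) h1

end Comp

end Sys

end Pool.Agent.Helper672.Blum
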